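import Pool.Agent.Escobar.Defs

open scoped ContDiff Topology
open Metric Filter

namespace Pool.Agent.Escobar

variable {n : ℕ}

/-- partial derivative in the direction `k` of the second factor -/
noncomputable def pdx (k : Fin n) (F : ℝ × E n → ℝ) (p : ℝ × E n) : ℝ :=
  fderiv ℝ F p (0, EuclideanSpace.single k 1)

theorem pd_slice (k : Fin n) {F : ℝ × E n → ℝ} {p : ℝ × E n} (hF : DifferentiableAt ℝ F p) :
    pd k (fun y => F (p.1, y)) p.2 = pdx k F p := by
  unfold pd pdx
  have h1 : HasFDerivAt (fun y : E n => (p.1, y)) (ContinuousLinearMap.inr ℝ ℝ (E n)) p.2 := by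
    simpa using (hasFDerivAt_prodMk_right p.1 p.2)
  have h2 : HasFDerivAt F (fderiv ℝ F (p.1, p.2)) (p.1, p.2) := hF.hasFDerivAt
  have h3 := h2.comp p.2 h1
  have h4 : fderiv ℝ (fun y => F (p.1, y)) p.2 =
      (fderiv ℝ F (p.1, p.2)).comp (ContinuousLinearMap.inr ℝ ℝ (E n)) := h3.fderiv
  rw [h4]
  simp

theorem pdx_smooth (k : Fin n) {F : ℝ × E n → ℝ} {p : ℝ × E n} (hF : ContDiffAt ℝ ω F p) :
    ContDiffAt ℝ ω (pdx k F) p := by
  unfold pdx
  have : ContDiffAt ℝ ω (fderiv ℝ F) p := hF.fderiv_right (by simp)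
  exact this.clm_apply contDiffAt_const

theorem slice_smooth {F : ℝ × E n → ℝ} {p : ℝ × E n} (hF : ContDiffAt ℝ ω F p) :
    ContDiffAt ℝ ω (fun y => F (p.1, y)) p.2 := by
  have h : ContDiffAt ℝ ω (fun y : E n => (p.1, y)) p.2 := by fun_prop
  exact ContDiffAt.comp (g := F) p.2 hF h

theorem eventually_slice {P : ℝ × E n → Prop} {p : ℝ × E n} (h : ∀ᶠ q in 𝓝 p, P q) :
    ∀ᶠ y in 𝓝 p.2, P (p.1, y) := by
  have hc : Continuous (fun y : E n => (p.1, y)) := by fun_prop
  have := hc.tendsto p.2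
  exact this.eventually h

/-- smoothness of determinants -/
theorem det_smooth {M : ℝ × E n → Matrix (Fin n) (Fin n) ℝ} {p : ℝ × E n}
    (h : ∀ i j, ContDiffAt ℝ ω (fun q => M q i j) p) : ContDiffAt ℝ ω (fun q => (M q).det) p := by
  simp only [Matrix.det_apply]
  refine ContDiffAt.sum fun σ _ => ?_
  have : ContDiffAt ℝ ω (fun q => ∏ i, M q (σ i) i) p := contDiffAt_prod fun i _ => h _ _
  have h2 := this.const_smul ((Equiv.Perm.sign σ : ℤ))
  exact h2

theorem inv_smooth {M : ℝ × E n → Matrix (Fin n) (Fin n) ℝ} {p : ℝ × E n}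
    (h : ∀ i j, ContDiffAt ℝ ω (fun q => M q i j) p) (hd : (M p).det ≠ 0) (i j : Fin n) :
    ContDiffAt ℝ ω (fun q => (M q)⁻¹ i j) p := by
  have h1 : ContDiffAt ℝ ω (fun q => (M q).adjugate i j) p := by
    simp only [Matrix.adjugate_apply]
    apply det_smooth
    intro a b
    by_cases hab : a = j
    · subst hab; simp only [Matrix.updateRow_self]; exact contDiffAt_const
    · simp only [Matrix.updateRow_ne hab]; exact h a b
  have h2 := (det_smooth h).inv hd
  have h3 : (fun q => (M q)⁻¹ i j) = fun q => ((M q).det)⁻¹ * (M q).adjugate i j := by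
    funext q
    rw [Matrix.inv_def, Matrix.smul_apply, Ring.inverse_eq_inv', smul_eq_mul]
  rw [h3]
  exact h2.mul h1

/-! ### Rules for partial derivatives -/

theorem pd_congr (k : Fin n) {f g : E n → ℝ} {x : E n} (h : f =ᶠ[𝓝 x] g) : pd k f x = pd k g x := by
  unfold pd; rw [h.fderiv_eq]

theorem pd_const (k : Fin n) (c : ℝ) (x : E n) : pd k (fun _ => c) x = 0 := by
  simp [pd]

theorem pd_add (k : Fin n) {f g : E n → ℝ} {x : E n} (hf : DifferentiableAt ℝ f x)
    (hg : DifferentiableAt ℝ g x) : pd k (fun y => f y + g y) x = pd k f x + pd k g x := by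
  unfold pd; rw [fderiv_fun_add hf hg]; simp

theorem pd_sub (k : Fin n) {f g : E n → ℝ} {x : E n} (hf : DifferentiableAt ℝ f x)
    (hg : DifferentiableAt ℝ g x) : pd k (fun y => f y - g y) x = pd k f x - pd k g x := by
  unfold pd; rw [fderiv_fun_sub hf hg]; simp

theorem pd_mul (k : Fin n) {f g : E n → ℝ} {x : E n} (hf : DifferentiableAt ℝ f x)
    (hg : DifferentiableAt ℝ g x) :
    pd k (fun y => f y * g y) x = pd k f x * g x + f x * pd k g x := by
  unfold pd; rw [fderiv_fun_mul hf hg]; simp; ring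

theorem pd_const_mul (k : Fin n) (c : ℝ) {f : E n → ℝ} {x : E n}
    (hf : DifferentiableAt ℝ f x) : pd k (fun y => c * f y) x = c * pd k f x := by
  rw [pd_mul k (by fun_prop) hf, pd_const]; ring

theorem pd_sum (k : Fin n) {ι : Type*} (s : Finset ι) {f : ι → E n → ℝ} {x : E n}
    (hf : ∀ i ∈ s, DifferentiableAt ℝ (f i) x) :
    pd k (fun y => ∑ i ∈ s, f i y) x = ∑ i ∈ s, pd k (f i) x := by
  unfold pd; rw [fderiv_fun_sum hf]; simp

theorem pd_coord (k j : Fin n) (x : E n) : pd k (fun y => y j) x = if j = k then 1 else 0 := by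
  unfold pd
  have h : HasFDerivAt (fun y : E n => y j) (EuclideanSpace.proj j : E n →L[ℝ] ℝ) x :=
    (EuclideanSpace.proj j : E n →L[ℝ] ℝ).hasFDerivAt
  rw [h.fderiv]
  simp

end Pool.Agent.Escobar
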