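import Pool.Agent.Escobar.Second

open scoped ContDiff Topology
open Metric Filter

namespace Pool.Agent.Escobar

variable {n : ℕ} {h : ℝ × E n → Matrix (Fin n) (Fin n) ℝ}

/-- the first-order correction of the squared length of `x_i dx^i` -/
noncomputable def zz (h : ℝ × E n → Matrix (Fin n) (Fin n) ℝ) (p : ℝ × E n) : ℝ :=
  ∑ k, ∑ l, (∑ m, h p k m * (GG h p)⁻¹ m l) * p.2 k * p.2 l

/-- the first-order Christoffel term -/
noncomputable def qq (h : ℝ × E n → Matrix (Fin n) (Fin n) ℝ) (p : ℝ × E n) (X : E n) : ℝ :=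
  ∑ k, ∑ i, ∑ j, p.2 k * gam h k i j p * X i * X j

theorem nsq_eq {p : ℝ × E n} (hp : (GG h p).det ≠ 0) :
    Nsq (fun y => GG h (p.1, y)) p.2 = ‖p.2‖ ^ 2 - p.1 * zz h p := by
  have hi : GG h p * (GG h p)⁻¹ = 1 := Matrix.mul_nonsing_inv _ (isUnit_iff_ne_zero.2 hp)
  have h2 : ∀ k l, (GG h p)⁻¹ k l = (1 : Matrix (Fin n) (Fin n) ℝ) k l -
      p.1 * ∑ m, h p k m * (GG h p)⁻¹ m l := by
    intro k l
    have h3 := congrFun (congrFun hi k) l
    rw [Matrix.mul_apply] at h3
    simp only [GG_apply, add_mul, Finset.sum_add_distrib] at h3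
    have h4 : ∑ m, (1 : Matrix (Fin n) (Fin n) ℝ) k m * (GG h p)⁻¹ m l = (GG h p)⁻¹ k l := by
      have := congrFun (congrFun (Matrix.one_mul ((GG h p)⁻¹)) k) l
      rw [Matrix.mul_apply] at this
      exact this
    have h5 : ∑ m, p.1 * h p k m * (GG h p)⁻¹ m l = p.1 * ∑ m, h p k m * (GG h p)⁻¹ m l := by
      rw [Finset.mul_sum]
      exact Finset.sum_congr rfl fun m _ => by ring
    linarith
  unfold Nsq zz
  have h3 : ∀ i j, (GG h (p.1, p.2))⁻¹ i j * p.2 i * p.2 j =
      (1 : Matrix (Fin n) (Fin n) ℝ) i j * p.2 i * p.2 j -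
      p.1 * ((∑ m, h p i m * (GG h p)⁻¹ m j) * p.2 i * p.2 j) := by
    intro i j
    have : (GG h (p.1, p.2))⁻¹ i j = (GG h p)⁻¹ i j := rfl
    rw [this, h2 i j]; ring
  simp only [h3, Finset.sum_sub_distrib, Finset.mul_sum]
  congr 1
  exact qf_one p.2

theorem reg_of_good {p : ℝ × E n} (hp : Good h p) (hsym : ∀ p i j, h p i j = h p j i)
    (hpos : 0 < ‖p.2‖ ^ 2 - p.1 * zz h p) : Reg (fun y => GG h (p.1, y)) p.2 where
  det := by
    filter_upwards [eventually_slice (good_eventually hp)] with y hy using hy.2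
  diff i j := diff_slice (GG_smooth hp.1 i j)
  idiff i j := diff_slice (inv_smooth (GG_smooth hp.1) hp.2 i j)
  symm y i j := by
    simp only [GG_apply]
    rw [hsym, Matrix.one_apply, Matrix.one_apply]
    simp [eq_comm]
  pos := by rw [nsq_eq hp.2]; exact hpos

/-- elementary inequality -/
theorem inv_sqrt_ge {a : ℝ} (ha : |a| < 1) : 1 + a / 2 ≤ (√(1 - a))⁻¹ := by
  obtain ⟨h1, h2⟩ := abs_lt.1 ha
  have h3 : 0 < √(1 - a) := Real.sqrt_pos.2 (by linarith)
  have h4 : √(1 - a) ≤ 1 - a / 2 := by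
    rw [Real.sqrt_le_left (by linarith)]
    nlinarith [sq_nonneg a]
  rw [le_inv_comm₀ (by linarith) h3]
  rw [← one_div, le_div_iff₀ (by linarith)]
  nlinarith [sq_nonneg a]

/-- the first-order boundary quantity -/
noncomputable def psi (h : ℝ × E n → Matrix (Fin n) (Fin n) ℝ) (κ : ℝ)
    (z : ℝ × (E n × E n)) : ℝ :=
  zz h (z.1, z.2.1) / 2 - qq h (z.1, z.2.1) z.2.2 - qf (fun i j => h (z.1, z.2.1) i j) z.2.2 + κ +
    z.1 * (-(qq h (z.1, z.2.1) z.2.2 * zz h (z.1, z.2.1) / 2) +
      κ * qf (fun i j => h (z.1, z.2.1) i j) z.2.2)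

theorem zz_smooth {p : ℝ × E n} (hp : Good h p) : ContDiffAt ℝ ω (zz h) p := by
  unfold zz
  refine ContDiffAt.sum fun k _ => ContDiffAt.sum fun l _ => ?_
  refine ContDiffAt.mul (ContDiffAt.mul (ContDiffAt.sum fun m _ => ?_) ?_) ?_
  · exact (hp.1 k m).mul (inv_smooth (GG_smooth hp.1) hp.2 m l)
  · fun_prop
  · fun_prop

theorem qq_cont {x X : E n} (hp : Good h (0, x)) :
    ContinuousAt (fun z : ℝ × (E n × E n) => qq h (z.1, z.2.1) z.2.2) (0, (x, X)) := by
  unfold qq
  refine tendsto_finsetSum _ fun k _ => tendsto_finsetSum _ fun i _ =>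
    tendsto_finsetSum _ fun j _ => ?_
  have h1 : ContinuousAt (fun z : ℝ × (E n × E n) => gam h k i j (z.1, z.2.1)) (0, (x, X)) := by
    refine ContinuousAt.comp (g := gam h k i j)
      (f := fun z : ℝ × (E n × E n) => (z.1, z.2.1)) (gam_smooth hp k i j).continuousAt ?_
    exact Continuous.continuousAt (by fun_prop)
  refine ContinuousAt.mul (ContinuousAt.mul (ContinuousAt.mul ?_ h1) ?_) ?_
  · exact Continuous.continuousAt (by fun_prop)
  · exact Continuous.continuousAt (by fun_prop)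
  · exact Continuous.continuousAt (by fun_prop)

theorem zz_cont {x X : E n} (hp : Good h (0, x)) :
    ContinuousAt (fun z : ℝ × (E n × E n) => zz h (z.1, z.2.1)) (0, (x, X)) := by
  refine ContinuousAt.comp (g := zz h)
      (f := fun z : ℝ × (E n × E n) => (z.1, z.2.1)) (zz_smooth hp).continuousAt ?_
  exact Continuous.continuousAt (by fun_prop)

theorem psi_cont {x X : E n} (hp : Good h (0, x)) (κ : ℝ) :
    ContinuousAt (psi h κ) (0, (x, X)) := by
  have hz := zz_cont (X := X) hp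
  have hq := qq_cont (X := X) hp
  have hh : ContinuousAt (fun z : ℝ × (E n × E n) => qf (fun i j => h (z.1, z.2.1) i j) z.2.2)
      (0, (x, X)) :=
    qf_cont (F := fun i j p => h p i j) fun i j => (hp.1 i j).continuousAt
  have h1 : ContinuousAt (fun z : ℝ × (E n × E n) => z.1) (0, (x, X)) :=
    Continuous.continuousAt (by fun_prop)
  unfold psi
  exact (((hz.div_const 2).sub hq).sub hh).add_const κ |>.add
    (h1.mul ((((hq.mul hz).div_const 2).neg).add (hh.const_mul κ)))

/-- The second fundamental form is bounded below by `1 - ε κ` for small `ε`, if the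
first-order condition holds. -/
theorem secondFF_small (hs : ∀ x i j, ContDiffAt ℝ ω (fun q => h q i j) (0, x))
    (hsym : ∀ p i j, h p i j = h p j i) (κ : ℝ)
    (h0 : ∀ x : E n, ‖x‖ = 1 → ∀ X : E n, ‖X‖ = 1 → ∑ i, x i * X i = 0 →
      0 < (1 / 2) * qf (fun i j => h (0, x) i j) x -
        (∑ k, ∑ i, ∑ j, x k * gam0 (fun y => h (0, y)) k i j x * X i * X j) -
        qf (fun i j => h (0, x) i j) X + κ) :
    ∀ᶠ ε in 𝓝 (0 : ℝ), 0 < ε → ∀ x ∈ sphere (0 : E n) 1, ∀ X : E n, ∑ i, x i * X i = 0 →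
      (1 - ε * κ) * ip (fun y => GG h (ε, y)) x X X ≤ secondFF (fun y => GG h (ε, y)) x X X := by
  have hK : IsCompact {z : E n × E n | z.1 ∈ sphere (0 : E n) 1 ∧ z.2 ∈ sphere (0 : E n) 1 ∧
      ∑ i, z.1 i * z.2 i = 0} := by
    have h1 : IsCompact (sphere (0 : E n) 1 ×ˢ sphere (0 : E n) 1) :=
      (isCompact_sphere _ _).prod (isCompact_sphere _ _)
    have h2 : IsClosed {z : E n × E n | ∑ i, z.1 i * z.2 i = 0} :=
      isClosed_eq (by fun_prop) continuous_const
    have h3 := h1.inter_right h2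
    convert h3 using 1
    ext z
    simp only [Set.mem_ofPred_eq, Set.mem_inter_iff, Set.mem_prod]
    tauto
  have key := hK.eventually_forall_of_forall_eventually (x₀ := (0 : ℝ))
    (P := fun ε z => 0 < psi h κ (ε, z) ∧ |ε * zz h (ε, z.1)| < 1 ∧
      ε * qq h (ε, z.1) z.2 < 1) ?_
  · filter_upwards [key, good_small hs 1] with ε h1 h2 hε x hx X hX
    have hx' : ‖x‖ = 1 := by simpa using hx
    have hgood : Good h (ε, x) := h2 x (sphere_subset_closedBall hx)
    by_cases hX0 : X = 0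
    · subst hX0
      simp [ip, secondFF]
    have hn : 0 < ‖X‖ := norm_pos_iff.2 hX0
    set Y : E n := ‖X‖⁻¹ • X with hY
    have hYn : ‖Y‖ = 1 := by rw [hY, norm_smul, norm_inv, norm_norm, inv_mul_cancel₀ hn.ne']
    have hXY : X = ‖X‖ • Y := by rw [hY, smul_smul, mul_inv_cancel₀ hn.ne', one_smul]
    have hYt : ∑ i, x i * Y i = 0 := by
      have : ∑ i, x i * Y i = ‖X‖⁻¹ * ∑ i, x i * X i := by
        rw [Finset.mul_sum]
        refine Finset.sum_congr rfl fun i _ => ?_
        simp only [hY, PiLp.smul_apply, smul_eq_mul]; ring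
      rw [this, hX, mul_zero]
    obtain ⟨hpsi, hz, hq⟩ := h1 (x, Y) ⟨hx, by simpa using hYn, hYt⟩
    simp only at hpsi hz hq
    have hz2 := abs_lt.1 hz
    have hpos : 0 < ‖((ε, x) : ℝ × E n).2‖ ^ 2 -
        ((ε, x) : ℝ × E n).1 * zz h (ε, x) := by
      simp only [hx']; linarith [hz2.2]
    have hr := reg_of_good hgood hsym hpos
    simp only at hr
    have hN : Nsq (fun y => GG h (ε, y)) x = 1 - ε * zz h (ε, x) := by
      have := nsq_eq (h := h) (p := (ε, x)) hgood.2
      simp only [hx'] at this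
      rw [this]; ring
    rw [hr.secondFF_eq X hX, hN]
    -- reduce to the unit vector
    have e1 : ∑ i, X i ^ 2 = ‖X‖ ^ 2 := by
      rw [EuclideanSpace.norm_sq_eq]; simp
    have e2 : ∑ k, ∑ i, ∑ j, x k * christoffel (fun y => GG h (ε, y)) k i j x * X i * X j =
        ‖X‖ ^ 2 * (ε * qq h (ε, x) Y) := by
      unfold qq
      simp only [Finset.mul_sum]
      refine Finset.sum_congr rfl fun k _ => Finset.sum_congr rfl fun i _ =>
        Finset.sum_congr rfl fun j _ => ?_
      have := chris_eq hgood k i j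
      simp only at this
      rw [this]
      have hi : ∀ i, X i = ‖X‖ * Y i := by
        intro i
        conv_lhs => rw [hXY]
        simp
      rw [hi i, hi j]; ring
    have e3 : ip (fun y => GG h (ε, y)) x X X =
        ‖X‖ ^ 2 * (1 + ε * qf (fun i j => h (ε, x) i j) Y) := by
      have : ip (fun y => GG h (ε, y)) x X X = qf (fun i j => GG h (ε, x) i j) X := rfl
      rw [this]
      conv_lhs => rw [hXY]
      rw [qf_smul]
      simp only [GG_apply]
      have e4 : qf (fun i j => (1 : Matrix (Fin n) (Fin n) ℝ) i j + ε * h (ε, x) i j) Y =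
          qf (fun i j => (1 : Matrix (Fin n) (Fin n) ℝ) i j) Y +
          qf (fun i j => ε * h (ε, x) i j) Y := qf_add _ _ _
      have e5 : qf (fun i j => ε * h (ε, x) i j) Y = ε * qf (fun i j => h (ε, x) i j) Y :=
        qf_const_mul _ _ _
      have e6 : qf (fun i j => (1 : Matrix (Fin n) (Fin n) ℝ) i j) Y = ‖Y‖ ^ 2 := qf_one Y
      rw [e4, e5, e6, hYn]
      ring
    rw [e1, e2, e3]
    have hs1 := inv_sqrt_ge hz
    have h5 : 0 ≤ 1 - ε * qq h (ε, x) Y := by linarith
    have h6 : (1 - ε * qq h (ε, x) Y) * (1 + ε * zz h (ε, x) / 2) ≤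
        (1 - ε * qq h (ε, x) Y) * (√(1 - ε * zz h (ε, x)))⁻¹ :=
      mul_le_mul_of_nonneg_left hs1 h5
    have h7 : (1 - ε * κ) * (1 + ε * qf (fun i j => h (ε, x) i j) Y) ≤
        (1 - ε * qq h (ε, x) Y) * (1 + ε * zz h (ε, x) / 2) := by
      have h8 : 0 < ε * psi h κ (ε, (x, Y)) := mul_pos hε hpsi
      unfold psi at h8
      simp only at h8
      nlinarith [h8]
    have h9 : 0 ≤ ‖X‖ ^ 2 := by positivity
    calc (1 - ε * κ) * (‖X‖ ^ 2 * (1 + ε * qf (fun i j => h (ε, x) i j) Y))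
        = ‖X‖ ^ 2 * ((1 - ε * κ) * (1 + ε * qf (fun i j => h (ε, x) i j) Y)) := by ring
      _ ≤ ‖X‖ ^ 2 * ((1 - ε * qq h (ε, x) Y) * (√(1 - ε * zz h (ε, x)))⁻¹) :=
          mul_le_mul_of_nonneg_left (h7.trans h6) h9
      _ = _ := by ring
  · rintro ⟨x, X⟩ ⟨hx, hX, hxX⟩
    have hx' : ‖x‖ = 1 := by simpa using hx
    have hX' : ‖X‖ = 1 := by simpa using hX
    have hg := good_zero (hs x)
    have c1 := psi_cont (X := X) hg κ
    have hz := zz_cont (X := X) hg
    have hq := qq_cont (X := X) hg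
    have h1 : ContinuousAt (fun z : ℝ × (E n × E n) => z.1) (0, (x, X)) :=
      Continuous.continuousAt (by fun_prop)
    have v1 : 0 < psi h κ (0, (x, X)) := by
      have hin : (GG h (0, x))⁻¹ = 1 := by simp [GG]
      have z0 : zz h (0, x) = qf (fun i j => h (0, x) i j) x := by
        unfold zz qf
        refine Finset.sum_congr rfl fun k _ => Finset.sum_congr rfl fun l _ => ?_
        rw [hin]
        simp [Matrix.one_apply]
      have q0 : qq h (0, x) X =
          ∑ k, ∑ i, ∑ j, x k * gam0 (fun y => h (0, y)) k i j x * X i * X j := by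
        unfold qq
        refine Finset.sum_congr rfl fun k _ => Finset.sum_congr rfl fun i _ =>
          Finset.sum_congr rfl fun j _ => ?_
        rw [gam_zero (hs x)]
      have := h0 x hx' X hX' hxX
      unfold psi
      simp only [z0, q0]
      linarith
    have c2 : ContinuousAt (fun z : ℝ × (E n × E n) => |z.1 * zz h (z.1, z.2.1)|)
        (0, (x, X)) := (h1.mul hz).abs
    have c3 : ContinuousAt (fun z : ℝ × (E n × E n) => z.1 * qq h (z.1, z.2.1) z.2.2)
        (0, (x, X)) := h1.mul hq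
    have a1 := c1.eventually_const_lt v1
    have a2 := c2.eventually_lt_const (u := 1) (by simp)
    have a3 := c3.eventually_lt_const (u := 1) (by simp)
    filter_upwards [a1, a2, a3] with z b1 b2 b3 using ⟨b1, b2, b3⟩

end Pool.Agent.Escobar
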