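import Pool.Agent.Escobar.FirstOrder

open scoped ContDiff Topology
open Metric Filter

namespace Pool.Agent.Escobar

variable {n : ℕ} [NeZero n]

/-- the first coordinate covector -/
def e0 (k : Fin n) : ℝ := if k = 0 then 1 else 0

/-- the projection of `x` to the last `n - 1` coordinates -/
noncomputable def yy (x : E n) (k : Fin n) : ℝ := if k = 0 then 0 else x k

/-- squared norm of the last coordinates -/
noncomputable def TT (x : E n) : ℝ := ∑ k, yy x k ^ 2

/-- scalar product of the last coordinates -/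
noncomputable def PP (v x : E n) : ℝ := ∑ k, yy x k * yy v k

/-- Polynomial expressions in three variables. -/
inductive Ex : Type
  | c (r : ℝ) : Ex
  | s : Ex
  | t : Ex
  | p : Ex
  | add (a b : Ex) : Ex
  | mul (a b : Ex) : Ex

namespace Ex

/-- evaluation -/
noncomputable def ev (S T P : ℝ) : Ex → ℝ
  | c r => r
  | s => S
  | t => T
  | p => P
  | add a b => a.ev S T P + b.ev S T P
  | mul a b => a.ev S T P * b.ev S T P

/-- formal derivative in `s` -/
noncomputable def ds : Ex → Ex
  | c _ => c 0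
  | s => c 1
  | t => c 0
  | p => c 0
  | add a b => add a.ds b.ds
  | mul a b => add (mul a.ds b) (mul a b.ds)

/-- formal derivative in `t` -/
noncomputable def dt : Ex → Ex
  | c _ => c 0
  | s => c 0
  | t => c 1
  | p => c 0
  | add a b => add a.dt b.dt
  | mul a b => add (mul a.dt b) (mul a b.dt)

/-- formal derivative in `p` -/
noncomputable def dp : Ex → Ex
  | c _ => c 0
  | s => c 0
  | t => c 0
  | p => c 1
  | add a b => add a.dp b.dp
  | mul a b => add (mul a.dp b) (mul a b.dp)

/-- the function on space defined by an expression -/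
noncomputable def fn (v : E n) (F : Ex) (x : E n) : ℝ := F.ev (x 0) (TT x) (PP v x)

end Ex

theorem yy_smooth (k : Fin n) : ContDiff ℝ ω (fun x : E n => yy x k) := by
  unfold yy
  split_ifs
  · exact contDiff_const
  · fun_prop

theorem TT_smooth : ContDiff ℝ ω (fun x : E n => TT x) := by
  unfold TT
  exact ContDiff.sum fun k _ => (yy_smooth k).pow 2

theorem PP_smooth (v : E n) : ContDiff ℝ ω (fun x : E n => PP v x) := by
  unfold PP
  exact ContDiff.sum fun k _ => (yy_smooth k).mul contDiff_const

theorem Ex.fn_smooth (v : E n) (F : Ex) : ContDiff ℝ ω (F.fn v) := by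
  unfold Ex.fn
  induction F with
  | c r => exact contDiff_const
  | s => simp only [Ex.ev]; fun_prop
  | t => exact TT_smooth
  | p => exact PP_smooth v
  | add a b ha hb => exact ha.add hb
  | mul a b ha hb => exact ha.mul hb

theorem pd_yy (k j : Fin n) (x : E n) :
    pd k (fun y => yy y j) x = if j = k then 1 - e0 k else 0 := by
  unfold yy e0
  by_cases hj : j = 0
  · subst hj
    simp only [if_true]
    rw [pd_const]
    split_ifs with h1 h2
    · simp
    · exact absurd h1.symm h2
    · rfl
  · simp only [if_neg hj]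
    rw [pd_coord]
    split_ifs with h1 h2
    · exact absurd (h1.trans h2) hj
    · simp
    · rfl

theorem pd_TT (k : Fin n) (x : E n) : pd k (fun y => TT y) x = 2 * yy x k := by
  unfold TT
  have h1 : (fun y : E n => ∑ j, yy y j ^ 2) = fun y => ∑ j, yy y j * yy y j := by
    funext y; exact Finset.sum_congr rfl fun j _ => by ring
  rw [h1, pd_sum k Finset.univ (f := fun j y => yy y j * yy y j)
    (fun j _ => (smooth_diff (yy_smooth j) x).mul (smooth_diff (yy_smooth j) x))]
  have h2 : ∀ j, pd k (fun y => yy y j * yy y j) x =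
      if j = k then 2 * ((1 - e0 k) * yy x k) else 0 := by
    intro j
    rw [pd_mul k (smooth_diff (yy_smooth j) x) (smooth_diff (yy_smooth j) x), pd_yy]
    split_ifs with h
    · subst h; ring
    · ring
  simp only [h2, Finset.sum_ite_eq', Finset.mem_univ, if_true]
  unfold e0 yy
  split_ifs <;> ring

theorem pd_PP (v : E n) (k : Fin n) (x : E n) : pd k (fun y => PP v y) x = yy v k := by
  unfold PP
  rw [pd_sum k Finset.univ (f := fun j y => yy y j * yy v j)
    (fun j _ => (smooth_diff (yy_smooth j) x).mul_const _)]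
  have h2 : ∀ j, pd k (fun y => yy y j * yy v j) x =
      if j = k then (1 - e0 k) * yy v k else 0 := by
    intro j
    rw [pd_mul k (smooth_diff (yy_smooth j) x) (by fun_prop), pd_yy, pd_const]
    split_ifs with h
    · subst h; ring
    · ring
  simp only [h2, Finset.sum_ite_eq', Finset.mem_univ, if_true]
  unfold e0 yy
  split_ifs <;> ring

theorem pd_s (k : Fin n) (x : E n) : pd k (fun y => y 0) x = e0 k := by
  rw [pd_coord]; unfold e0
  split_ifs with h1 h2 h2
  · rfl
  · exact absurd h1.symm h2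
  · exact absurd h2.symm h1
  · rfl

theorem pd_fn (v : E n) (F : Ex) (k : Fin n) (x : E n) :
    pd k (F.fn v) x = F.ds.fn v x * e0 k + 2 * F.dt.fn v x * yy x k + F.dp.fn v x * yy v k := by
  induction F with
  | c r =>
    have : (Ex.c r).fn v = fun _ => r := by funext y; rfl
    rw [this, pd_const]; simp [Ex.fn, Ex.ds, Ex.dt, Ex.dp, Ex.ev]
  | s =>
    have : (Ex.s).fn v = fun y => y 0 := by funext y; rfl
    rw [this, pd_s]; simp [Ex.fn, Ex.ds, Ex.dt, Ex.dp, Ex.ev]
  | t =>
    have : (Ex.t).fn v = fun y => TT y := by funext y; rfl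
    rw [this, pd_TT]; simp [Ex.fn, Ex.ds, Ex.dt, Ex.dp, Ex.ev]
  | p =>
    have : (Ex.p).fn v = fun y => PP v y := by funext y; rfl
    rw [this, pd_PP]; simp [Ex.fn, Ex.ds, Ex.dt, Ex.dp, Ex.ev]
  | add a b ha hb =>
    have : (Ex.add a b).fn v = fun y => a.fn v y + b.fn v y := by funext y; rfl
    rw [this, pd_add k (smooth_diff (a.fn_smooth v) x) (smooth_diff (b.fn_smooth v) x), ha, hb]
    simp only [Ex.fn, Ex.ds, Ex.dt, Ex.dp, Ex.ev]; ring
  | mul a b ha hb =>
    have : (Ex.mul a b).fn v = fun y => a.fn v y * b.fn v y := by funext y; rfl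
    rw [this, pd_mul k (smooth_diff (a.fn_smooth v) x) (smooth_diff (b.fn_smooth v) x), ha, hb]
    simp only [Ex.fn, Ex.ds, Ex.dt, Ex.dp, Ex.ev]; ring

/-! ### sums of products of the basic covectors -/

theorem sum_e0_e0 : ∑ k : Fin n, e0 k * e0 k = 1 := by simp [e0]
theorem sum_e0_yy (x : E n) : ∑ k, e0 k * yy x k = 0 := by
  refine Finset.sum_eq_zero fun k _ => ?_
  unfold e0 yy; split_ifs <;> simp
theorem sum_yy_yy (x : E n) : ∑ k, yy x k * yy x k = TT x := by
  unfold TT; exact Finset.sum_congr rfl fun k _ => by ring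
theorem sum_e0_x (x : E n) : ∑ k, e0 k * x k = x 0 := by simp [e0]
theorem sum_yy_x (v x : E n) : ∑ k, yy x k * v k = PP v x := by
  unfold PP; refine Finset.sum_congr rfl fun k _ => ?_
  unfold yy; split_ifs <;> simp
theorem PP_self (x : E n) : PP x x = TT x := sum_yy_yy x
theorem PP_comm (x v : E n) : PP x v = PP v x := by
  unfold PP; exact Finset.sum_congr rfl fun k _ => by ring
theorem coord_eq (v : E n) (k : Fin n) : v k = v 0 * e0 k + yy v k := by
  unfold e0 yy; split_ifs with h
  · rw [h]; ring
  · ring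
theorem sum_one_sub_e0 : ∑ k : Fin n, (1 - e0 k) = (n : ℝ) - 1 := by
  simp [e0]

/-- the derivative of an expression in the direction `v` -/
noncomputable def Ex.dv (v : E n) (F : Ex) : Ex :=
  .add (.add (.mul F.ds (.c (v 0))) (.mul (.mul (.c 2) F.dt) .p)) (.mul F.dp (.c (TT v)))

theorem Dv_fn (v : E n) (F : Ex) (x : E n) : Dv v (F.fn v) x = (F.dv v).fn v x := by
  unfold Dv
  simp only [pd_fn]
  have h1 : ∀ i, v i * (F.ds.fn v x * e0 i + 2 * F.dt.fn v x * yy x i + F.dp.fn v x * yy v i) =
      F.ds.fn v x * (e0 i * v i) + 2 * F.dt.fn v x * (yy x i * v i) +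
        F.dp.fn v x * (yy v i * v i) := by intro i; ring
  simp only [h1, Finset.sum_add_distrib, ← Finset.mul_sum, sum_e0_x, sum_yy_x, PP_self]
  simp only [Ex.dv, Ex.fn, Ex.ev]

/-- divergence of the vector field `F yy + G yy v + K e0` -/
theorem div_fn (v : E n) (F G K : Ex) (x : E n) :
    ∑ k, pd k (fun y => F.fn v y * yy y k + G.fn v y * yy v k + K.fn v y * e0 k) x =
      (2 * TT x * F.dt.fn v x + PP v x * F.dp.fn v x + ((n : ℝ) - 1) * F.fn v x) +
      (2 * PP v x * G.dt.fn v x + TT v * G.dp.fn v x) + K.ds.fn v x := by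
  have h1 : ∀ k, pd k (fun y => F.fn v y * yy y k + G.fn v y * yy v k + K.fn v y * e0 k) x =
      (F.ds.fn v x * (e0 k * yy x k) + 2 * F.dt.fn v x * (yy x k * yy x k) +
        F.dp.fn v x * (yy x k * yy v k) + F.fn v x * (1 - e0 k)) +
      (G.ds.fn v x * (e0 k * yy v k) + 2 * G.dt.fn v x * (yy x k * yy v k) +
        G.dp.fn v x * (yy v k * yy v k)) +
      (K.ds.fn v x * (e0 k * e0 k) + 2 * K.dt.fn v x * (e0 k * yy x k) +
        K.dp.fn v x * (e0 k * yy v k)) := by
    intro k
    have dF := smooth_diff (F.fn_smooth v) x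
    have dG := smooth_diff (G.fn_smooth v) x
    have dK := smooth_diff (K.fn_smooth v) x
    have dy := smooth_diff (yy_smooth (n := n) k) x
    rw [pd_add k (f := fun y => F.fn v y * yy y k + G.fn v y * yy v k)
        (g := fun y => K.fn v y * e0 k) ((dF.mul dy).add (dG.mul_const _)) (dK.mul_const _),
      pd_add k (f := fun y => F.fn v y * yy y k) (g := fun y => G.fn v y * yy v k)
        (dF.mul dy) (dG.mul_const _), pd_mul k dF dy, pd_mul k dG (by fun_prop),
      pd_mul k dK (by fun_prop), pd_const, pd_const, pd_fn, pd_fn, pd_fn, pd_yy]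
    simp only [if_true]
    ring
  simp only [h1, Finset.sum_add_distrib, ← Finset.mul_sum, sum_e0_e0, sum_e0_yy, sum_yy_yy,
    sum_one_sub_e0]
  have h2 : ∑ k, yy x k * yy v k = PP v x := rfl
  rw [h2]; ring

end Pool.Agent.Escobar
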