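import Mathlib

/-!
# Riemannian geometry of a metric on the closed unit ball: definitions

A Riemannian metric on the closed unit ball of `ℝⁿ` is given by its matrix `g x` of components in
the standard coordinates.  All definitions below are the usual coordinate formulas.
-/

open scoped ContDiff
open Metric

namespace Pool.Agent.Escobar

/-- Euclidean `n`-space. -/
abbrev E (n : ℕ) := EuclideanSpace ℝ (Fin n)

/-- The `k`-th partial derivative of `f` at `x`. -/
noncomputable def pd {n : ℕ} (k : Fin n) (f : E n → ℝ) (x : E n) : ℝ :=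
  fderiv ℝ f x (EuclideanSpace.single k 1)

/-- `g` is (the component matrix of) a Riemannian metric on the closed unit ball, smooth up to and
across the boundary. -/
structure IsMetric {n : ℕ} (g : E n → Matrix (Fin n) (Fin n) ℝ) : Prop where
  /-- the components are smooth on an open set containing the closed unit ball -/
  smooth : ∃ U : Set (E n), IsOpen U ∧ closedBall 0 1 ⊆ U ∧
    ∀ i j, ContDiffOn ℝ ∞ (fun x => g x i j) U
  /-- the matrix is symmetric and positive definite at every point of the closed unit ball -/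
  posDef : ∀ x ∈ closedBall (0 : E n) 1, (g x).PosDef

/-- The inner product `g(X,Y)` of two tangent vectors at `x`. -/
noncomputable def ip {n : ℕ} (g : E n → Matrix (Fin n) (Fin n) ℝ) (x X Y : E n) : ℝ :=
  ∑ i, ∑ j, g x i j * X i * Y j

/-- The Christoffel symbol `Γ^k_ij`. -/
noncomputable def christoffel {n : ℕ} (g : E n → Matrix (Fin n) (Fin n) ℝ) (k i j : Fin n)
    (x : E n) : ℝ :=
  ∑ l, (1 / 2) * (g x)⁻¹ k l *
    (pd i (fun y => g y j l) x + pd j (fun y => g y i l) x - pd l (fun y => g y i j) x)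

/-- The Ricci tensor `R_ij = ∂_k Γ^k_ij - ∂_j Γ^k_ik + Γ^k_kl Γ^l_ij - Γ^k_jl Γ^l_ik`. -/
noncomputable def ricci {n : ℕ} (g : E n → Matrix (Fin n) (Fin n) ℝ) (i j : Fin n)
    (x : E n) : ℝ :=
  ∑ k, pd k (christoffel g k i j) x - ∑ k, pd j (christoffel g k i k) x +
    ∑ k, ∑ l, (christoffel g k k l x * christoffel g l i j x -
      christoffel g k j l x * christoffel g l i k x)

/-- The Ricci curvature `Ric(X,X)` at `x`. -/
noncomputable def ricciQuad {n : ℕ} (g : E n → Matrix (Fin n) (Fin n) ℝ) (x X : E n) : ℝ :=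
  ∑ i, ∑ j, ricci g i j x * X i * X j

/-- The Laplace-Beltrami operator `Δ u = g^ij (∂_i ∂_j u - Γ^k_ij ∂_k u)`. -/
noncomputable def laplacian {n : ℕ} (g : E n → Matrix (Fin n) (Fin n) ℝ) (u : E n → ℝ)
    (x : E n) : ℝ :=
  ∑ i, ∑ j, (g x)⁻¹ i j * (pd i (pd j u) x - ∑ k, christoffel g k i j x * pd k u x)

/-- The `k`-th component of the `g`-unit normal field to the spheres centred at the origin,
pointing outward: the normalised `g`-gradient of `|x|² / 2`. -/
noncomputable def normal {n : ℕ} (g : E n → Matrix (Fin n) (Fin n) ℝ) (k : Fin n)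
    (x : E n) : ℝ :=
  (∑ j, (g x)⁻¹ k j * x j) / √(∑ i, ∑ j, (g x)⁻¹ i j * x i * x j)

/-- The covariant derivative `(∇_X ν)^k = X^i ∂_i ν^k + Γ^k_ij X^i ν^j` of the normal. -/
noncomputable def covNormal {n : ℕ} (g : E n → Matrix (Fin n) (Fin n) ℝ) (x X : E n)
    (k : Fin n) : ℝ :=
  ∑ i, X i * pd i (normal g k) x + ∑ i, ∑ j, christoffel g k i j x * X i * normal g j x

/-- The second fundamental form `ρ(X,Y) = ⟨∇_X ν, Y⟩` of the boundary sphere. -/
noncomputable def secondFF {n : ℕ} (g : E n → Matrix (Fin n) (Fin n) ℝ) (x X Y : E n) : ℝ :=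
  ∑ k, ∑ l, g x k l * covNormal g x X k * Y l

/-- `σ` is a Steklov eigenvalue of the closed unit ball with metric `g`: there is a smooth `u`,
not identically zero on the ball, with `Δ u = 0` in the ball and `∂_ν u = σ u` on the sphere. -/
def IsSteklovEigenvalue {n : ℕ} (g : E n → Matrix (Fin n) (Fin n) ℝ) (σ : ℝ) : Prop :=
  ∃ u : E n → ℝ, ContDiff ℝ ∞ u ∧ (∃ x ∈ closedBall (0 : E n) 1, u x ≠ 0) ∧
    (∀ x ∈ closedBall (0 : E n) 1, laplacian g u x = 0) ∧
    ∀ x ∈ sphere (0 : E n) 1, ∑ k, normal g k x * pd k u x = σ * u x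

/-- The first nonzero Steklov eigenvalue. -/
noncomputable def firstSteklov {n : ℕ} (g : E n → Matrix (Fin n) (Fin n) ℝ) : ℝ :=
  sInf {σ | 0 < σ ∧ IsSteklovEigenvalue g σ}

end Pool.Agent.Escobar
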