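import Pool.Agent.Escobar.Family

open scoped ContDiff Topology
open Metric Filter

namespace Pool.Agent.Escobar

/-- the algebraic identity behind harmonicity -/
theorem lap_alg {a b T κ as bs cs : ℝ} (ha : a ≠ 0) (hD : a + b * T ≠ 0) (hκ : κ ≠ 0)
    (hcs : as + cs = κ ^ 2 * (4 * a ^ 3 * as * (a + b * T) + a ^ 4 * (as + bs * T)))
    {α : ℝ} (hα : α = κ ^ 2 * a ^ 4 * (a + b * T)) :
    2 * (1 / a + (1 / α - 1 / a)) * (as + cs) -
      (1 / a * as * 6 + (1 / a * bs + -b / (a * (a + b * T)) * as +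
        -b / (a * (a + b * T)) * bs * T) * T +
          (1 / a * cs + (1 / α - 1 / a) * as + (1 / α - 1 / a) * cs)) = 0 := by
  have hα0 : α ≠ 0 := by rw [hα]; positivity
  obtain ⟨D, hDD⟩ : ∃ D, D = a + b * T := ⟨_, rfl⟩
  rw [← hDD] at hD hcs hα ⊢
  have e2 : 1 / α * (as + cs) = 4 * as / a + (as + bs * T) / D := by
    rw [hcs, hα]
    field_simp
  have e3 : 1 / D + T * b / (a * D) - 1 / a = 0 := by
    field_simp
    rw [hDD]; ring
  have e4 : 2 * (1 / a + (1 / α - 1 / a)) * (as + cs) -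
      (1 / a * as * 6 + (1 / a * bs + -b / (a * D) * as + -b / (a * D) * bs * T) * T +
          (1 / a * cs + (1 / α - 1 / a) * as + (1 / α - 1 / a) * cs)) =
      (1 / α * (as + cs) - (4 * as / a + (as + bs * T) / D)) +
        (as + bs * T) * (1 / D + T * b / (a * D) - 1 / a) := by
    ring
  rw [e4, e2, e3]; ring

theorem slice_diff {F : ℝ × ℝ × ℝ → ℝ} {ε : ℝ} {x : E 6}
    (hF : ContDiffAt ℝ ω F (ε, x 0 ^ 2, TT x)) :
    DifferentiableAt ℝ (fun y : E 6 => F (ε, y 0 ^ 2, TT y)) x := by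
  have h1 : ContDiffAt ℝ ω (fun q : ℝ × E 6 => F (red q)) (ε, x) :=
    ContDiffAt.comp (g := F) (ε, x) hF (red_smooth (ε, x))
  exact diff_slice h1

theorem lap_zero {ε : ℝ} {x : E 6} (hε : 0 < ε) (hok : Ok (ε, x)) :
    laplacian (fun y => GG hm (ε, y)) (fun y => y 0) x = 0 := by
  have hinv := GG_inv hε hok
  obtain ⟨h0, h1, h2⟩ := hok
  simp only at h0 h1 h2
  set a : E 6 → ℝ := fun y => 1 + ε * pA (y 0 ^ 2) (TT y) with ha
  set b : E 6 → ℝ := fun y => ε * hB ε (y 0 ^ 2) (TT y) with hb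
  set c : E 6 → ℝ := fun y => ε * hH ε (y 0 ^ 2) (TT y) - ε * pA (y 0 ^ 2) (TT y) with hc
  have dA : DifferentiableAt ℝ (fun y : E 6 => pA (y 0 ^ 2) (TT y)) x :=
    slice_diff (F := fun z => pA z.2.1 z.2.2) (ε := ε) pA_smooth
  have dB : DifferentiableAt ℝ (fun y : E 6 => hB ε (y 0 ^ 2) (TT y)) x :=
    slice_diff (F := fun z => hB z.1 z.2.1 z.2.2) (hB_smooth h0)
  have dH : DifferentiableAt ℝ (fun y : E 6 => hH ε (y 0 ^ 2) (TT y)) x :=
    slice_diff (F := fun z => hH z.1 z.2.1 z.2.2) (hH_smooth h0)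
  have da : DifferentiableAt ℝ a x := (dA.const_mul ε).const_add 1
  have db : DifferentiableAt ℝ b x := dB.const_mul ε
  have dc : DifferentiableAt ℝ c x := (dH.const_mul ε).sub (dA.const_mul ε)
  have e1 : (fun y => GG hm (ε, y)) = fun y => mm (a y) (b y) (c y) y := by
    funext y; exact GG_hm ε y
  have hDy : ∀ y : E 6, 1 + ε * hD ε (y 0 ^ 2) (TT y) = a y + b y * TT y := by
    intro y; simp only [ha, hb, hD]; ring
  have hal : ∀ y, 1 + ε * hH ε (y 0 ^ 2) (TT y) =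
      (1 + 1000 * ε) ^ 2 * a y ^ 4 * (a y + b y * TT y) := by
    intro y; rw [alpha_eq, hDy y]
  have hac : (fun y => a y + c y) = fun y => (1 + 1000 * ε) ^ 2 * (a y * a y * (a y * a y) *
      (a y + b y * TT y)) := by
    funext y
    have := hal y
    simp only [ha, hc] at this ⊢
    linear_combination this
  have dT : DifferentiableAt ℝ (fun y : E 6 => TT y) x := smooth_diff TT_smooth x
  have hs : pd 0 a x + pd 0 c x = (1 + 1000 * ε) ^ 2 * (4 * a x ^ 3 * pd 0 a x *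
      (a x + b x * TT x) + a x ^ 4 * (pd 0 a x + pd 0 b x * TT x)) := by
    rw [← pd_add 0 da dc, hac, pd_const_mul 0 (f := fun y => a y * a y * (a y * a y) *
      (a y + b y * TT y)) _ (((da.mul da).mul (da.mul da)).mul (da.add (db.mul dT))),
      pd_mul 0 (f := fun y => a y * a y * (a y * a y)) (g := fun y => a y + b y * TT y)
        ((da.mul da).mul (da.mul da)) (da.add (db.mul dT)),
      pd_mul 0 (f := fun y => a y * a y) (g := fun y => a y * a y) (da.mul da) (da.mul da),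
      pd_mul 0 da da, pd_add 0 (f := a) (g := fun y => b y * TT y) da (db.mul dT),
      pd_mul 0 (f := b) (g := fun y => TT y) db dT, pd_TT, yy_zero]
    ring
  rw [e1, laplacian_coord da db dc hinv]
  have h3 := lap_alg (a := a x) (b := b x) (T := TT x) (κ := 1 + 1000 * ε)
    (as := pd 0 a x) (bs := pd 0 b x) (cs := pd 0 c x) h1.ne' (by rw [← hDy x]; exact h2.ne')
    (by positivity) hs (hal x)
  rw [← hDy x] at h3
  have h4 : ((6 : ℕ) : ℝ) = 6 := by norm_num
  rw [h4]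
  exact neg_eq_zero.2 (mul_eq_zero_of_right _ h3)

/-- the normal derivative of the first coordinate on the unit sphere -/
theorem steklov_eq {ε : ℝ} {x : E 6} (hε : 0 < ε) (hx : x 0 ^ 2 + TT x = 1)
    (hok : Ok (ε, x)) :
    ∑ k, normal (fun y => GG hm (ε, y)) k x * pd k (fun y : E 6 => y 0) x =
      (1 + 1000 * ε)⁻¹ * x 0 := by
  have hinv := GG_inv hε hok
  obtain ⟨h0, h1, h2⟩ := hok
  simp only at h0 h1 h2
  have e1 : (fun y => GG hm (ε, y)) = fun y : E 6 => mm (1 + ε * pA (y 0 ^ 2) (TT y))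
      (ε * hB ε (y 0 ^ 2) (TT y)) (ε * hH ε (y 0 ^ 2) (TT y) - ε * pA (y 0 ^ 2) (TT y)) y := by
    funext y; exact GG_hm ε y
  rw [e1, normal_coord (a := fun y => 1 + ε * pA (y 0 ^ 2) (TT y))
    (b := fun y => ε * hB ε (y 0 ^ 2) (TT y))
    (c := fun y => ε * hH ε (y 0 ^ 2) (TT y) - ε * pA (y 0 ^ 2) (TT y)) hinv]
  have hw : 1 - x 0 ^ 2 - TT x = 0 := by linarith
  have hA : 1 + ε * pA (x 0 ^ 2) (TT x) = ab ε (TT x) := by
    rw [pA_eq, hw]; unfold ab; ring
  have hBb : hB ε (x 0 ^ 2) (TT x) = beta ε (TT x) := by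
    unfold hB; rw [hw]; ring
  have hDD : 1 + ε * hD ε (x 0 ^ 2) (TT x) = ab ε (TT x) + TT x * (ε * beta ε (TT x)) := by
    rw [← hBb, ← hA]; unfold hD; ring
  have hrel := bdry_rel h0
  have hk := kappa_ab ε (TT x)
  have hal := alpha_eq ε (x 0 ^ 2) (TT x)
  rw [hDD] at h2 hal
  rw [hA] at h1 hal
  rw [hDD, hA, hBb]
  generalize ab ε (TT x) = a at *
  generalize beta ε (TT x) = β at *
  generalize qk ε (TT x) = q at *
  generalize hH ε (x 0 ^ 2) (TT x) = H at *
  generalize TT x = T at *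
  generalize x 0 = s at *
  have hα : 0 < 1 + ε * H := by rw [hal]; positivity
  obtain ⟨κ, hκ⟩ : ∃ κ, κ = 1 + 1000 * ε := ⟨_, rfl⟩
  have hκ0 : 0 < κ := by rw [hκ]; positivity
  rw [← hκ] at hk hal ⊢
  generalize hDg : a + T * (ε * β) = D at *
  generalize 1 + ε * H = α at *
  have hs : s ^ 2 = 1 - T := by linarith
  have hrad : 1 / a * (s ^ 2 + T) + -(ε * β) / (a * D) * T ^ 2 + (1 / α - 1 / a) * s ^ 2 =
      (κ / α) ^ 2 := by
    have f1 : 1 / a * (s ^ 2 + T) + -(ε * β) / (a * D) * T ^ 2 + (1 / α - 1 / a) * s ^ 2 =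
        s ^ 2 / α + T / D := by
      have : T * (ε * β) = D - a := by linarith
      have e : -(ε * β) / (a * D) * T ^ 2 = -(T * (ε * β)) * T / (a * D) := by ring
      rw [e, this]
      field_simp
      ring
    rw [f1, hs]
    have f2 : D * a ^ 4 * (1 - T + κ ^ 2 * a ^ 4 * T) = 1 := by
      rw [hk]; linear_combination hrel
    have f3 : α * ((1 - T) / α + T / D) = 1 - T + κ ^ 2 * a ^ 4 * T := by
      rw [hal]; field_simp
    have f4 : (κ / α) ^ 2 * α = κ ^ 2 / α := by field_simp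
    have f5 : κ ^ 2 / α = 1 / (a ^ 4 * D) := by rw [hal]; field_simp
    have f6 : α * ((1 - T) / α + T / D) = (κ / α) ^ 2 * α := by
      rw [f3, f4, f5, eq_div_iff (by positivity)]
      linear_combination f2
    have : ((1 - T) / α + T / D) * α = (κ / α) ^ 2 * α := by rw [← f6]; ring
    exact mul_right_cancel₀ hα.ne' this
  rw [hrad, Real.sqrt_sq (by positivity)]
  field_simp
  ring

end Pool.Agent.Escobar
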