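import Pool.Agent.Escobar.Poly

open scoped ContDiff Topology
open Metric Filter

namespace Pool.Agent.Escobar

/-- the polynomial `A` -/
def pA (X t : ℝ) : ℝ :=
  -98 + (-20) * t + (-250) * t ^ 2 + 26 * X + (-342) * X * t + 72 * X ^ 2

/-- the polynomial `B` -/
def pB (X t : ℝ) : ℝ :=
  20 + 1290 * t + 2 * t ^ 2 + 1224 * X + 74 * X * t + (-584) * X ^ 2

/-- the polynomial `H` -/
def pH (X t : ℝ) : ℝ :=
  1510 + (-80) * t + 40 * t ^ 2 + 2 * t ^ 3 + 130 * X + (-486) * X * t + 74 * X * t ^ 2 +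
    360 * X ^ 2 + (-584) * X ^ 2 * t

namespace Ex

/-- `s²` -/
def X2 : Ex := mul s s

/-- `t²` -/
def t2 : Ex := mul t t

/-- `A` as an expression -/
def eA : Ex :=
  add (c (-98)) (add (mul (c (-20)) t) (add (mul (c (-250)) t2) (add (mul (c 26) X2)
    (add (mul (c (-342)) (mul X2 t)) (mul (c 72) (mul X2 X2))))))

/-- `B` as an expression -/
def eB : Ex :=
  add (c 20) (add (mul (c 1290) t) (add (mul (c 2) t2) (add (mul (c 1224) X2)
    (add (mul (c 74) (mul X2 t)) (mul (c (-584)) (mul X2 X2))))))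

/-- `H` as an expression -/
def eH : Ex :=
  add (c 1510) (add (mul (c (-80)) t) (add (mul (c 40) t2) (add (mul (c 2) (mul t t2))
    (add (mul (c 130) X2) (add (mul (c (-486)) (mul X2 t)) (add (mul (c 74) (mul X2 t2))
      (add (mul (c 360) (mul X2 X2)) (mul (c (-584)) (mul (mul X2 X2) t)))))))))

end Ex

/-- `A` as a function on space -/
noncomputable def fA (x : E 6) : ℝ := pA (x 0 ^ 2) (TT x)
/-- `B` as a function on space -/
noncomputable def fB (x : E 6) : ℝ := pB (x 0 ^ 2) (TT x)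
/-- `H` as a function on space -/
noncomputable def fH (x : E 6) : ℝ := pH (x 0 ^ 2) (TT x)

theorem fn_eA (v : E 6) : Ex.eA.fn v = fA := by
  funext x; simp only [Ex.fn, Ex.eA, Ex.X2, Ex.t2, Ex.ev, fA, pA]; ring

theorem fn_eB (v : E 6) : Ex.eB.fn v = fB := by
  funext x; simp only [Ex.fn, Ex.eB, Ex.X2, Ex.t2, Ex.ev, fB, pB]; ring

theorem fn_eH (v : E 6) : Ex.eH.fn v = fH := by
  funext x; simp only [Ex.fn, Ex.eH, Ex.X2, Ex.t2, Ex.ev, fH, pH]; ring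

theorem ric0_explicit (v x : E 6) :
    qf (fun i j => ric0 (ff fA fB fH) i j x) v =
      ra0 (x 0 ^ 2) (TT x) * v 0 ^ 2 + 2 * x 0 * ra1 (x 0 ^ 2) (TT x) * v 0 * PP v x +
        ra2 (x 0 ^ 2) (TT x) * TT v + ra3 (x 0 ^ 2) (TT x) * PP v x ^ 2 := by
  rw [ric0_formula fn_eA fn_eB fn_eH]
  simp only [Ex.F1, Ex.G1, Ex.K1, Ex.QE, Ex.TE, Ex.dv, Ex.fn, Ex.eA, Ex.eB, Ex.eH, Ex.X2, Ex.t2,
    Ex.ds, Ex.dt, Ex.dp, Ex.ev, ra0, ra1, ra2, ra3, Nat.cast_ofNat]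
  ring

/-- zeroth boundary polynomial -/
def rc0 (t : ℝ) : ℝ := -2691 + 5648 * t - 2952 * t ^ 2

theorem bdry_explicit (v x : E 6) (hx : x 0 ^ 2 + TT x = 1) (hxv : x 0 * v 0 + PP v x = 0)
    (hv : v 0 ^ 2 + TT v = 1) :
    (1 / 2) * qf (fun i j => ff fA fB fH x i j) x -
      (∑ k, ∑ i, ∑ j, x k * gam0 (ff fA fB fH) k i j x * v i * v j) -
      qf (fun i j => ff fA fB fH x i j) v + 999 = rc0 (TT x) * v 0 ^ 2 + rc1 (TT x) * TT v := by
  rw [bdry_formula fn_eA fn_eB fn_eH, qf_ff fn_eA fn_eB fn_eH v x]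
  have h1 : qf (fun i j => ff fA fB fH x i j) x =
      fA x * TT x + fB x * TT x ^ 2 + fH x * x 0 ^ 2 := by
    unfold ff
    rw [mm_qf, PP_self]; ring
  rw [h1]
  have e1 : TT x = 1 - x 0 ^ 2 := by linarith
  have e2 : PP v x = -(x 0 * v 0) := by linarith
  have e3 : TT v = 1 - v 0 ^ 2 := by linarith
  simp only [Ex.F1, Ex.G1, Ex.K1, Ex.QE, Ex.dv, Ex.fn, Ex.eA, Ex.eB, Ex.eH, Ex.X2, Ex.t2,
    Ex.ds, Ex.dt, Ex.dp, Ex.ev, fA, fB, fH, pA, pB, pH, rc0, rc1, e1, e2, e3]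
  ring

/-! ### positivity -/

theorem norm_sq_split {n : ℕ} [NeZero n] (x : E n) : ‖x‖ ^ 2 = x 0 ^ 2 + TT x := by
  rw [← sum_x_x, EuclideanSpace.norm_sq_eq]
  exact Finset.sum_congr rfl fun k _ => by rw [Real.norm_eq_abs, sq_abs]; ring

theorem TT_nonneg {n : ℕ} [NeZero n] (x : E n) : 0 ≤ TT x :=
  Finset.sum_nonneg fun _ _ => sq_nonneg _

theorem PP_cs {n : ℕ} [NeZero n] (v x : E n) : PP v x ^ 2 ≤ TT x * TT v :=
  Finset.sum_mul_sq_le_sq_mul_sq _ _ _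

theorem ric0_pos (x : E 6) (hx : x ∈ closedBall (0 : E 6) 1) (v : E 6) (hv : ‖v‖ = 1) :
    0 < qf (fun i j => ric0 (ff fA fB fH) i j x) v := by
  rw [ric0_explicit]
  have hx1 : ‖x‖ ≤ 1 := by simpa using hx
  have hx2 : x 0 ^ 2 + TT x ≤ 1 := by
    rw [← norm_sq_split]
    have := norm_nonneg x
    nlinarith
  have hv2 : v 0 ^ 2 + TT v = 1 := by rw [← norm_sq_split, hv]; norm_num
  exact ric_form_pos (TT_nonneg x) hx2 (PP_cs v x) (TT_nonneg v) hv2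

theorem bdry0_pos (x : E 6) (hx : ‖x‖ = 1) (v : E 6) (hv : ‖v‖ = 1)
    (hxv : ∑ i, x i * v i = 0) :
    0 < (1 / 2) * qf (fun i j => ff fA fB fH x i j) x -
      (∑ k, ∑ i, ∑ j, x k * gam0 (ff fA fB fH) k i j x * v i * v j) -
      qf (fun i j => ff fA fB fH x i j) v + 999 := by
  have hx2 : x 0 ^ 2 + TT x = 1 := by rw [← norm_sq_split, hx]; norm_num
  have hv2 : v 0 ^ 2 + TT v = 1 := by rw [← norm_sq_split, hv]; norm_num
  have hp : x 0 * v 0 + PP v x = 0 := by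
    rw [← hxv, ← sum_yy_x]
    have : ∀ i, x i * v i = x 0 * (e0 i * v i) + yy x i * v i := by
      intro i
      have h := coord_eq x i
      calc x i * v i = (x 0 * e0 i + yy x i) * v i := by rw [← h]
        _ = _ := by ring
    rw [Finset.sum_congr rfl fun i _ => this i, Finset.sum_add_distrib, ← Finset.mul_sum,
      sum_e0_x]
  rw [bdry_explicit v x hx2 hp hv2]
  have hcs := PP_cs v x
  have hT := TT_nonneg x
  have hN := TT_nonneg v
  have hT1 : TT x ≤ 1 := by nlinarith [sq_nonneg (x 0)]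
  have h1 := rc1_pos hT hT1
  have h2 := rtc_pos hT hT1
  have e2 : PP v x = -(x 0 * v 0) := by linarith
  have h3 : (x 0 ^ 2) * v 0 ^ 2 ≤ TT x * TT v := by
    rw [e2] at hcs; nlinarith
  have h4 : TT x * rc0 (TT x) + x 0 ^ 2 * rc1 (TT x) = rtc (TT x) := by
    have : x 0 ^ 2 = 1 - TT x := by linarith
    rw [this]; unfold rc0 rc1 rtc; ring
  rcases hT.eq_or_lt with hT0 | hT0
  · have hx0 : x 0 ^ 2 = 1 := by linarith
    have hv0 : v 0 ^ 2 = 0 := by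
      rw [← hT0, hx0] at h3; nlinarith [sq_nonneg (v 0)]
    have hN1 : TT v = 1 := by linarith
    rw [hv0, hN1]; linarith
  · have h5 : TT x * (rc0 (TT x) * v 0 ^ 2 + rc1 (TT x) * TT v) =
        rtc (TT x) * v 0 ^ 2 + rc1 (TT x) * (TT x * TT v - x 0 ^ 2 * v 0 ^ 2) := by
      rw [← h4]; ring
    have h6 : 0 < TT x * (rc0 (TT x) * v 0 ^ 2 + rc1 (TT x) * TT v) := by
      rw [h5]
      have h7 : 0 ≤ rc1 (TT x) * (TT x * TT v - x 0 ^ 2 * v 0 ^ 2) :=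
        mul_nonneg h1.le (by linarith)
      by_cases hv0 : v 0 = 0
      · have hN1 : TT v = 1 := by rw [hv0] at hv2; linarith
        rw [hv0, hN1]
        have : 0 < rc1 (TT x) * TT x := mul_pos h1 hT0
        nlinarith
      · have : 0 < rtc (TT x) * v 0 ^ 2 := by positivity
        linarith
    exact (mul_pos_iff_of_pos_left hT0).1 h6

end Pool.Agent.Escobar
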