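import Pool.Agent.Escobar.Soft2

open scoped ContDiff Topology
open Metric Filter

namespace Pool.Agent.Escobar

variable {n : ℕ} {g : E n → Matrix (Fin n) (Fin n) ℝ}

/-- the squared length of the covector `x_i dx^i` -/
noncomputable def Nsq (g : E n → Matrix (Fin n) (Fin n) ℝ) (x : E n) : ℝ :=
  ∑ i, ∑ j, (g x)⁻¹ i j * x i * x j

theorem mul_inv_apply {y : E n} (hd : (g y).det ≠ 0) (i j : Fin n) :
    ∑ k, g y i k * (g y)⁻¹ k j = if i = j then 1 else 0 := by
  have : g y * (g y)⁻¹ = 1 := Matrix.mul_nonsing_inv _ (isUnit_iff_ne_zero.2 hd)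
  have h2 := congrFun (congrFun this i) j
  rw [Matrix.mul_apply, Matrix.one_apply] at h2
  exact h2

/-- lowering the index of the normal -/
theorem lower_normal {y : E n} (hd : (g y).det ≠ 0) (l : Fin n) :
    ∑ k, g y l k * normal g k y = y l * (√(Nsq g y))⁻¹ := by
  unfold normal Nsq
  have e : ∀ k, g y l k * ((∑ j, (g y)⁻¹ k j * y j) / √(∑ i, ∑ j, (g y)⁻¹ i j * y i * y j)) =
      (∑ j, g y l k * (g y)⁻¹ k j * y j) * (√(∑ i, ∑ j, (g y)⁻¹ i j * y i * y j))⁻¹ := by
    intro k
    rw [div_eq_mul_inv, ← mul_assoc, Finset.mul_sum]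
    congr 1
    exact Finset.sum_congr rfl fun j _ => by ring
  simp only [e]
  rw [← Finset.sum_mul, Finset.sum_comm]
  congr 1
  simp only [← Finset.sum_mul, mul_inv_apply hd]
  simp

/-- lowering the index of the Christoffel symbols -/
theorem lower_chris {x : E n} (hd : (g x).det ≠ 0) (l i j : Fin n) :
    ∑ k, g x l k * christoffel g k i j x =
      (1 / 2) * (pd i (fun y => g y j l) x + pd j (fun y => g y i l) x -
        pd l (fun y => g y i j) x) := by
  unfold christoffel
  have e : ∀ k, g x l k * (∑ m, (1 / 2) * (g x)⁻¹ k m * (pd i (fun y => g y j m) x +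
      pd j (fun y => g y i m) x - pd m (fun y => g y i j) x)) =
      ∑ m, (g x l k * (g x)⁻¹ k m) * ((1 / 2) * (pd i (fun y => g y j m) x +
      pd j (fun y => g y i m) x - pd m (fun y => g y i j) x)) := by
    intro k
    rw [Finset.mul_sum]
    exact Finset.sum_congr rfl fun j _ => by ring
  simp only [e]
  rw [Finset.sum_comm]
  simp only [← Finset.sum_mul, mul_inv_apply hd]
  simp

/-- The hypotheses on the metric needed at a point. -/
structure Reg (g : E n → Matrix (Fin n) (Fin n) ℝ) (x : E n) : Prop where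
  det : ∀ᶠ y in 𝓝 x, (g y).det ≠ 0
  diff : ∀ i j, DifferentiableAt ℝ (fun y => g y i j) x
  idiff : ∀ i j, DifferentiableAt ℝ (fun y => (g y)⁻¹ i j) x
  symm : ∀ y i j, g y i j = g y j i
  pos : 0 < Nsq g x

theorem Reg.nsq_diff {x : E n} (hr : Reg g x) : DifferentiableAt ℝ (Nsq g) x := by
  unfold Nsq
  refine DifferentiableAt.fun_sum fun i _ => DifferentiableAt.fun_sum fun j _ => ?_
  exact ((hr.idiff i j).mul (by fun_prop)).mul (by fun_prop)

theorem Reg.phi_diff {x : E n} (hr : Reg g x) :
    DifferentiableAt ℝ (fun y => (√(Nsq g y))⁻¹) x := by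
  have h1 : DifferentiableAt ℝ (fun y => √(Nsq g y)) x := hr.nsq_diff.sqrt hr.pos.ne'
  exact h1.inv (Real.sqrt_pos.2 hr.pos).ne'

theorem Reg.normal_diff {x : E n} (hr : Reg g x) (k : Fin n) :
    DifferentiableAt ℝ (normal g k) x := by
  have e : normal g k = fun y => (∑ j, (g y)⁻¹ k j * y j) * (√(Nsq g y))⁻¹ := by
    funext y; unfold normal Nsq; rw [div_eq_mul_inv]
  rw [e]
  refine DifferentiableAt.mul ?_ hr.phi_diff
  refine DifferentiableAt.fun_sum fun j _ => ?_
  exact (hr.idiff k j).mul (by fun_prop)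

theorem Reg.lower_pd_normal {x : E n} (hr : Reg g x) (i l : Fin n) :
    ∑ k, g x l k * pd i (normal g k) x =
      (if l = i then 1 else 0) * (√(Nsq g x))⁻¹ + x l * pd i (fun y => (√(Nsq g y))⁻¹) x -
        ∑ k, pd i (fun y => g y l k) x * normal g k x := by
  have h1 : pd i (fun y => ∑ k, g y l k * normal g k y) x =
      pd i (fun y => y l * (√(Nsq g y))⁻¹) x := by
    apply pd_congr
    filter_upwards [hr.det] with y hy using lower_normal hy l
  rw [pd_mul i (by fun_prop) hr.phi_diff, pd_coord,
    pd_sum i Finset.univ (f := fun k y => g y l k * normal g k y)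
      (fun k _ => (hr.diff l k).mul (hr.normal_diff k))] at h1
  have h2 : ∀ k, pd i (fun y => g y l k * normal g k y) x =
      pd i (fun y => g y l k) x * normal g k x + g x l k * pd i (normal g k) x :=
    fun k => pd_mul i (hr.diff l k) (hr.normal_diff k)
  simp only [h2, Finset.sum_add_distrib] at h1
  linarith

theorem Reg.lower_cov {x : E n} (hr : Reg g x) (X : E n) (l : Fin n) :
    ∑ k, g x l k * covNormal g x X k =
      ∑ i, X i * ((if l = i then 1 else 0) * (√(Nsq g x))⁻¹ +
        x l * pd i (fun y => (√(Nsq g y))⁻¹) x -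
        ∑ j, (1 / 2) * (pd i (fun y => g y l j) x + pd l (fun y => g y i j) x -
          pd j (fun y => g y i l) x) * normal g j x) := by
  have hd : (g x).det ≠ 0 := hr.det.self_of_nhds
  have h1 : ∑ k, g x l k * covNormal g x X k =
      ∑ i, X i * (∑ k, g x l k * pd i (normal g k) x) +
      ∑ i, X i * ∑ j, (∑ k, g x l k * christoffel g k i j x) * normal g j x := by
    unfold covNormal
    simp only [mul_add, Finset.sum_add_distrib]
    congr 1
    · simp only [Finset.mul_sum]
      rw [Finset.sum_comm]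
      exact Finset.sum_congr rfl fun i _ => Finset.sum_congr rfl fun k _ => by ring
    · simp only [Finset.mul_sum, Finset.sum_mul]
      rw [Finset.sum_comm]
      refine Finset.sum_congr rfl fun i _ => ?_
      rw [Finset.sum_comm]
      exact Finset.sum_congr rfl fun j _ => Finset.sum_congr rfl fun k _ => by ring
  rw [h1, ← Finset.sum_add_distrib]
  refine Finset.sum_congr rfl fun i _ => ?_
  rw [← mul_add]
  congr 1
  rw [hr.lower_pd_normal, sub_add, sub_right_inj, ← Finset.sum_sub_distrib]
  refine Finset.sum_congr rfl fun j _ => ?_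
  rw [lower_chris hd]
  have s1 : (fun y => g y j l) = fun y => g y l j := by funext y; exact hr.symm y j l
  rw [s1]
  ring

/-- The second fundamental form of the sphere. -/
theorem Reg.secondFF_eq {x : E n} (hr : Reg g x) (X : E n) (hX : ∑ i, x i * X i = 0) :
    secondFF g x X X =
      (∑ i, X i ^ 2 - ∑ k, ∑ i, ∑ j, x k * christoffel g k i j x * X i * X j) *
        (√(Nsq g x))⁻¹ := by
  have hd : (g x).det ≠ 0 := hr.det.self_of_nhds
  have h1 : secondFF g x X X = ∑ l, X l * ∑ k, g x l k * covNormal g x X k := by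
    unfold secondFF
    rw [Finset.sum_comm]
    refine Finset.sum_congr rfl fun l _ => ?_
    rw [Finset.mul_sum]
    refine Finset.sum_congr rfl fun k _ => ?_
    rw [hr.symm x k l]; ring
  -- the Christoffel term
  have h2 : (∑ k, ∑ i, ∑ j, x k * christoffel g k i j x * X i * X j) * (√(Nsq g x))⁻¹ =
      ∑ l, ∑ i, ∑ j, X l * X i * ((1 / 2) * (pd i (fun y => g y l j) x +
        pd l (fun y => g y i j) x - pd j (fun y => g y i l) x) * normal g j x) := by
    have e1 : ∀ k, x k * (√(Nsq g x))⁻¹ = ∑ j, g x k j * normal g j x :=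
      fun k => (lower_normal hd k).symm
    have e2 : (∑ k, ∑ i, ∑ j, x k * christoffel g k i j x * X i * X j) * (√(Nsq g x))⁻¹ =
        ∑ i, ∑ l, X l * X i * ∑ k, (x k * (√(Nsq g x))⁻¹) * christoffel g k i l x := by
      simp only [Finset.sum_mul, Finset.mul_sum]
      rw [Finset.sum_comm]
      refine Finset.sum_congr rfl fun i _ => ?_
      rw [Finset.sum_comm]
      refine Finset.sum_congr rfl fun l _ => Finset.sum_congr rfl fun k _ => by ring
    rw [e2, Finset.sum_comm]
    refine Finset.sum_congr rfl fun l _ => Finset.sum_congr rfl fun i _ => ?_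
    have e3 : ∑ k, (x k * (√(Nsq g x))⁻¹) * christoffel g k i l x =
        ∑ j, (∑ k, g x j k * christoffel g k i l x) * normal g j x := by
      simp only [e1, Finset.sum_mul]
      rw [Finset.sum_comm]
      refine Finset.sum_congr rfl fun j _ => Finset.sum_congr rfl fun k _ => ?_
      rw [hr.symm x k j]; ring
    rw [e3, Finset.mul_sum]
    refine Finset.sum_congr rfl fun j _ => ?_
    rw [lower_chris hd]
  rw [sub_mul, h2, h1]
  simp only [hr.lower_cov]
  have h3 : ∀ l, X l * ∑ i, X i * ((if l = i then 1 else 0) * (√(Nsq g x))⁻¹ +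
        x l * pd i (fun y => (√(Nsq g y))⁻¹) x -
        ∑ j, (1 / 2) * (pd i (fun y => g y l j) x + pd l (fun y => g y i j) x -
          pd j (fun y => g y i l) x) * normal g j x) =
      X l ^ 2 * (√(Nsq g x))⁻¹ + x l * X l * (∑ i, X i * pd i (fun y => (√(Nsq g y))⁻¹) x) -
      ∑ i, ∑ j, X l * X i * ((1 / 2) * (pd i (fun y => g y l j) x +
        pd l (fun y => g y i j) x - pd j (fun y => g y i l) x) * normal g j x) := by
    intro l
    rw [Finset.mul_sum]
    have e4 : ∀ i, X l * (X i * ((if l = i then 1 else 0) * (√(Nsq g x))⁻¹ +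
        x l * pd i (fun y => (√(Nsq g y))⁻¹) x -
        ∑ j, (1 / 2) * (pd i (fun y => g y l j) x + pd l (fun y => g y i j) x -
          pd j (fun y => g y i l) x) * normal g j x)) =
        (if l = i then X l * X i * (√(Nsq g x))⁻¹ else 0) +
        x l * X l * (X i * pd i (fun y => (√(Nsq g y))⁻¹) x) -
        ∑ j, X l * X i * ((1 / 2) * (pd i (fun y => g y l j) x +
        pd l (fun y => g y i j) x - pd j (fun y => g y i l) x) * normal g j x) := by
      intro i
      rw [← Finset.mul_sum]
      split_ifs <;> ring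
    simp only [e4, Finset.sum_sub_distrib, Finset.sum_add_distrib]
    rw [Finset.sum_ite_eq]
    simp only [Finset.mem_univ, if_true]
    rw [← Finset.mul_sum]
    ring
  simp only [h3, Finset.sum_sub_distrib, Finset.sum_add_distrib]
  rw [← Finset.sum_mul, ← Finset.sum_mul, hX]
  ring

end Pool.Agent.Escobar
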