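import Pool.Agent.Escobar.Formula
import Pool.Agent.Escobar.Second

open scoped ContDiff Topology
open Metric Filter

namespace Pool.Agent.Escobar

variable {n : ℕ} [NeZero n]

theorem mm_row' (a b c : ℝ) (x : E n) (w : Fin n → ℝ) (k : Fin n) :
    ∑ j, mm a b c x k j * w j =
      a * w k + b * (∑ j, yy x j * w j) * yy x k + c * w 0 * e0 k := by
  simp only [mm_apply, add_mul, Finset.sum_add_distrib]
  have h1 : ∑ j, a * (1 : Matrix (Fin n) (Fin n) ℝ) k j * w j = a * w k := by
    simp only [mul_assoc]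
    rw [← Finset.mul_sum, sum_one_mul]
  have h2 : ∑ j, b * yy x k * yy x j * w j = b * (∑ j, yy x j * w j) * yy x k := by
    have : ∀ j, b * yy x k * yy x j * w j = (b * yy x k) * (yy x j * w j) := fun j => by ring
    simp only [this, ← Finset.mul_sum]; ring
  have h3 : ∑ j, c * e0 k * e0 j * w j = c * w 0 * e0 k := by
    have : ∀ j, c * e0 k * e0 j * w j = (c * e0 k) * (e0 j * w j) := fun j => by ring
    simp only [this, ← Finset.mul_sum]
    have : ∑ j, e0 j * w j = w 0 := by simp [e0]
    rw [this]; ring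
  rw [h1, h2, h3]

theorem one_zero (j : Fin n) : (1 : Matrix (Fin n) (Fin n) ℝ) 0 j = e0 j := by
  simp [Matrix.one_apply, e0, eq_comm]

theorem yy_zero (x : E n) : yy x 0 = 0 := by simp [yy]
theorem e0_zero : e0 (0 : Fin n) = 1 := by simp [e0]

theorem mm_zero (a b c : ℝ) (x : E n) (j : Fin n) : mm a b c x 0 j = (a + c) * e0 j := by
  rw [mm_apply, one_zero, yy_zero, e0_zero]; ring

theorem mm_mul (a b c a' b' c' : ℝ) (x : E n) : mm a b c x * mm a' b' c' x =
    mm (a * a') (a * b' + b * a' + b * b' * TT x) (a * c' + c * a' + c * c') x := by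
  ext i j
  rw [Matrix.mul_apply, mm_row' a b c x (fun k => mm a' b' c' x k j) i]
  have h1 : ∑ k, yy x k * mm a' b' c' x k j = (a' + b' * TT x) * yy x j := by
    have : ∀ k, yy x k * mm a' b' c' x k j = mm a' b' c' x j k * yy x k := by
      intro k; rw [mm_symm]; ring
    simp only [this]
    rw [mm_row' a' b' c' x (fun k => yy x k) j, sum_yy_yy, yy_zero]; ring
  rw [h1, mm_zero, mm_apply, mm_apply]; ring

theorem mm_inv {a b c : ℝ} {x : E n} (ha : a ≠ 0) (hD : a + b * TT x ≠ 0) (hc : a + c ≠ 0) :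
    (mm a b c x)⁻¹ = mm (1 / a) (-b / (a * (a + b * TT x))) (1 / (a + c) - 1 / a) x := by
  apply Matrix.inv_eq_right_inv
  rw [mm_mul]
  have h1 : a * (1 / a) = 1 := by field_simp
  have h2 : a * (-b / (a * (a + b * TT x))) + b * (1 / a) +
      b * (-b / (a * (a + b * TT x))) * TT x = 0 := by
    field_simp; ring
  have h3 : a * (1 / (a + c) - 1 / a) + c * (1 / a) + c * (1 / (a + c) - 1 / a) = 0 := by
    field_simp; ring
  rw [h1, h2, h3]
  ext i j
  rw [mm_apply]; ring

theorem mm_dot (a b c a' b' c' : ℝ) (x : E n) :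
    ∑ i, ∑ j, mm a b c x i j * mm a' b' c' x i j =
      a * a' * n + (a * b' + b * a' + b * b' * TT x) * TT x + (a * c' + c * a' + c * c') := by
  rw [← mm_trace (a * a') (a * b' + b * a' + b * b' * TT x) (a * c' + c * a' + c * c') x,
    ← mm_mul]
  refine Finset.sum_congr rfl fun i _ => ?_
  rw [Matrix.mul_apply]
  exact Finset.sum_congr rfl fun j _ => by rw [mm_symm a' b' c' x j i]

/-- The Laplacian of the first coordinate. -/
theorem laplacian_coord {a b c : E n → ℝ} {x : E n} (da : DifferentiableAt ℝ a x)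
    (db : DifferentiableAt ℝ b x) (dc : DifferentiableAt ℝ c x)
    {a' b' c' : ℝ} (hi : (mm (a x) (b x) (c x) x)⁻¹ = mm a' b' c' x) :
    laplacian (fun y => mm (a y) (b y) (c y) y) (fun y => y 0) x =
      -((1 / 2) * (a' + c') * (2 * (a' + c') * (pd 0 a x + pd 0 c x) -
        (a' * pd 0 a x * n + (a' * pd 0 b x + b' * pd 0 a x + b' * pd 0 b x * TT x) * TT x +
          (a' * pd 0 c x + c' * pd 0 a x + c' * pd 0 c x)))) := by
  have dy : ∀ i, DifferentiableAt ℝ (fun y : E n => yy y i) x := fun i =>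
    smooth_diff (yy_smooth i) x
  -- derivative of the components
  have h1 : ∀ i j, pd 0 (fun y => mm (a y) (b y) (c y) y i j) x =
      mm (pd 0 a x) (pd 0 b x) (pd 0 c x) x i j := by
    intro i j
    simp only [mm_apply]
    have p0 : ∀ i, pd 0 (fun y : E n => yy y i) x = 0 := by
      intro i; rw [pd_yy]; unfold e0; split_ifs <;> simp_all
    rw [pd_add 0 (f := fun y => a y * (1 : Matrix (Fin n) (Fin n) ℝ) i j + b y * yy y i * yy y j)
        (g := fun y => c y * e0 i * e0 j)
        ((da.mul_const _).add ((db.mul (dy i)).mul (dy j))) ((dc.mul_const _).mul_const _),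
      pd_add 0 (f := fun y => a y * (1 : Matrix (Fin n) (Fin n) ℝ) i j)
        (g := fun y => b y * yy y i * yy y j) (da.mul_const _) ((db.mul (dy i)).mul (dy j)),
      pd_mul 0 (f := fun y => b y * yy y i) (g := fun y => yy y j) (db.mul (dy i)) (dy j),
      pd_mul 0 db (dy i), pd_mul 0 da (by fun_prop),
      pd_mul 0 (f := fun y => c y * e0 i) (g := fun _ => e0 j) (dc.mul_const _) (by fun_prop),
      pd_mul 0 dc (by fun_prop), pd_const, pd_const, pd_const, p0, p0]
    ring
  have h2 : ∀ i j, pd i (fun y => mm (a y) (b y) (c y) y j 0) x =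
      (pd i a x + pd i c x) * e0 j := by
    intro i j
    have : (fun y => mm (a y) (b y) (c y) y j 0) = fun y => (a y + c y) * e0 j := by
      funext y; rw [mm_symm, mm_zero]
    rw [this, pd_mul i (f := fun y => a y + c y) (da.add dc) (by fun_prop), pd_const,
      pd_add i da dc]
    ring
  -- the Christoffel symbols
  have h3 : ∀ i j, christoffel (fun y => mm (a y) (b y) (c y) y) 0 i j x =
      (1 / 2) * (a' + c') * ((pd i a x + pd i c x) * e0 j + (pd j a x + pd j c x) * e0 i -
        mm (pd 0 a x) (pd 0 b x) (pd 0 c x) x i j) := by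
    intro i j
    unfold christoffel
    simp only [hi, mm_zero]
    rw [Finset.sum_eq_single 0]
    · rw [h2 i j, h2 j i, h1 i j, e0_zero]; ring
    · intro l _ hl
      have : e0 l = 0 := by simp [e0, hl]
      rw [this]; ring
    · simp
  -- the Laplacian
  have h4 : ∀ k, pd k (fun y : E n => y 0) x = e0 k := fun k => pd_s k x
  have h5 : ∀ i j, pd i (pd j (fun y : E n => y 0)) x = 0 := by
    intro i j
    have : pd j (fun y : E n => y 0) = fun _ => e0 j := by funext y; exact pd_s j y
    rw [this, pd_const]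
  have h6 : ∀ i j, ∑ k, christoffel (fun y => mm (a y) (b y) (c y) y) k i j x *
      pd k (fun y : E n => y 0) x =
      christoffel (fun y => mm (a y) (b y) (c y) y) 0 i j x := by
    intro i j
    simp only [h4]
    simp [e0]
  unfold laplacian
  simp only [h5, h6, hi, h3]
  have h7 : ∀ i j, mm a' b' c' x i j * (0 - (1 / 2) * (a' + c') *
      ((pd i a x + pd i c x) * e0 j + (pd j a x + pd j c x) * e0 i -
        mm (pd 0 a x) (pd 0 b x) (pd 0 c x) x i j)) =
      -((1 / 2) * (a' + c')) * ((pd i a x + pd i c x) * (mm a' b' c' x i j * e0 j)) +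
      -((1 / 2) * (a' + c')) * ((pd j a x + pd j c x) * (mm a' b' c' x j i * e0 i)) +
      ((1 / 2) * (a' + c')) *
        (mm a' b' c' x i j * mm (pd 0 a x) (pd 0 b x) (pd 0 c x) x i j) := by
    intro i j
    rw [mm_symm a' b' c' x j i]; ring
  simp only [h7, Finset.sum_add_distrib, ← Finset.mul_sum, mm_dot]
  have h8 : ∀ i, ∑ j, mm a' b' c' x i j * e0 j = (a' + c') * e0 i := by
    intro i
    rw [mm_row' a' b' c' x (fun k => e0 k) i, e0_zero]
    have : ∑ j, yy x j * e0 j = 0 := by
      rw [← sum_e0_yy x]; exact Finset.sum_congr rfl fun j _ => by ring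
    rw [this]; ring
  have h9 : ∑ i, (pd i a x + pd i c x) * ∑ j, mm a' b' c' x i j * e0 j =
      (a' + c') * (pd 0 a x + pd 0 c x) := by
    simp only [h8]
    have : ∀ i, (pd i a x + pd i c x) * ((a' + c') * e0 i) =
        (a' + c') * ((pd i a x + pd i c x) * e0 i) := fun i => by ring
    simp only [this, ← Finset.mul_sum]
    congr 1
    simp [e0]
  have h10 : ∑ i, ∑ j, (pd j a x + pd j c x) * (mm a' b' c' x j i * e0 i) =
      (a' + c') * (pd 0 a x + pd 0 c x) := by
    rw [Finset.sum_comm]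
    simp only [← Finset.mul_sum]
    exact h9
  rw [h9, h10]
  ring

/-- the normal derivative of the first coordinate -/
theorem normal_coord {a b c : E n → ℝ} {x : E n}
    {a' b' c' : ℝ} (hi : (mm (a x) (b x) (c x) x)⁻¹ = mm a' b' c' x) :
    ∑ k, normal (fun y => mm (a y) (b y) (c y) y) k x * pd k (fun y : E n => y 0) x =
      ((a' + c') * x 0) / √(a' * (x 0 ^ 2 + TT x) + b' * TT x ^ 2 + c' * x 0 ^ 2) := by
  have h4 : ∀ k, pd k (fun y : E n => y 0) x = e0 k := fun k => pd_s k x
  simp only [h4]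
  have h5 : ∑ k, normal (fun y => mm (a y) (b y) (c y) y) k x * e0 k =
      normal (fun y => mm (a y) (b y) (c y) y) 0 x := by simp [e0]
  rw [h5]
  unfold normal
  rw [hi]
  have h6 : ∑ i, ∑ j, mm a' b' c' x i j * x i * x j =
      a' * (x 0 ^ 2 + TT x) + b' * TT x ^ 2 + c' * x 0 ^ 2 := by
    have := mm_qf a' b' c' x x
    unfold qf at this
    rw [this, PP_self]
  rw [h6, mm_row]
  congr 1
  rw [yy_zero, e0_zero]; ring

end Pool.Agent.Escobar
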