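import Pool.Agent.Escobar.Explicit0
import Pool.Agent.Escobar.Harmonic
import Pool.Agent.Escobar.Bdry

open scoped ContDiff Topology
open Metric Filter

namespace Pool.Agent.Escobar

/-- derivative parameter of the boundary profile -/
noncomputable def cch (t : ℝ) : ℝ := -532 + 164 * t
/-- the boundary profile `a` -/
noncomputable def ab (ε t : ℝ) : ℝ := 1 + ε * (t * cch t)
/-- `(κ² a⁴ - 1) / ε` on the boundary -/
noncomputable def qk (ε t : ℝ) : ℝ :=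
  2000 + 1000000 * ε + (1 + 1000 * ε) ^ 2 * (t * cch t) *
    (1 + ab ε t + ab ε t ^ 2 + ab ε t ^ 3)
/-- denominator -/
noncomputable def den (ε t : ℝ) : ℝ := ab ε t ^ 4 * (1 + ε * (t * qk ε t))
/-- boundary profile of `b / ε` -/
noncomputable def beta (ε t : ℝ) : ℝ :=
  -(cch t * (1 + ab ε t + ab ε t ^ 2 + ab ε t ^ 3 + ab ε t ^ 4) + ab ε t ^ 5 * qk ε t) / den ε t
/-- `b / ε` -/
noncomputable def hB (ε X t : ℝ) : ℝ :=
  beta ε t + 2 * (1 - X - t) * (-320 + (-329) * t + 292 * X)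
/-- `(D - 1) / ε` -/
noncomputable def hD (ε X t : ℝ) : ℝ := pA X t + t * hB ε X t
/-- `(α - 1) / ε` -/
noncomputable def hH (ε X t : ℝ) : ℝ :=
  2000 + 1000000 * ε + (1 + 1000 * ε) ^ 2 *
    (pA X t * (1 + (1 + ε * pA X t) + (1 + ε * pA X t) ^ 2 + (1 + ε * pA X t) ^ 3) +
      (1 + ε * pA X t) ^ 4 * hD ε X t)

theorem pA_eq (X t : ℝ) :
    pA X t = t * cch t + 2 * (1 - X - t) * (-49 + 207 * t + (-36) * X) := by
  unfold pA cch; ring

theorem alpha_eq (ε X t : ℝ) : 1 + ε * hH ε X t =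
    (1 + 1000 * ε) ^ 2 * (1 + ε * pA X t) ^ 4 * (1 + ε * hD ε X t) := by
  unfold hH; ring

theorem hB_zero (X t : ℝ) : hB 0 X t = pB X t := by
  unfold hB beta den qk ab cch pB; norm_num; ring

theorem hH_zero (X t : ℝ) : hH 0 X t = pH X t := by
  unfold hH hD; rw [hB_zero]; unfold pA pB pH; ring

theorem kappa_ab (ε t : ℝ) : (1 + 1000 * ε) ^ 2 * ab ε t ^ 4 = 1 + ε * qk ε t := by
  unfold qk
  have : ab ε t = 1 + ε * (t * cch t) := rfl
  generalize cch t = c at *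
  generalize ab ε t = a at *
  subst this; ring

/-- the boundary relation -/
theorem bdry_rel {ε t : ℝ} (hd : den ε t ≠ 0) :
    (ab ε t + t * (ε * beta ε t)) * ab ε t ^ 4 * (1 + ε * (t * qk ε t)) = 1 := by
  have h1 : beta ε t * den ε t = -(cch t * (1 + ab ε t + ab ε t ^ 2 + ab ε t ^ 3 + ab ε t ^ 4) +
      ab ε t ^ 5 * qk ε t) := by
    unfold beta; field_simp
  have h2 : (ab ε t + t * (ε * beta ε t)) * ab ε t ^ 4 * (1 + ε * (t * qk ε t)) =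
      ab ε t * den ε t + t * ε * (beta ε t * den ε t) := by unfold den; ring
  rw [h2, h1]
  unfold den
  have : ab ε t = 1 + ε * (t * cch t) := rfl
  generalize cch t = c at *
  generalize ab ε t = a at *
  generalize qk ε t = q at *
  have h3 : ε * (t * c) = a - 1 := by linarith
  have h4 : a * (a ^ 4 * (1 + ε * (t * q))) + t * ε * -(c * (1 + a + a ^ 2 + a ^ 3 + a ^ 4) +
      a ^ 5 * q) = a ^ 5 - (ε * (t * c)) * (1 + a + a ^ 2 + a ^ 3 + a ^ 4) := by ring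
  rw [h4, h3]; ring

/-- the family `h` -/
noncomputable def hm (p : ℝ × E 6) : Matrix (Fin 6) (Fin 6) ℝ :=
  mm (pA (p.2 0 ^ 2) (TT p.2)) (hB p.1 (p.2 0 ^ 2) (TT p.2))
    (hH p.1 (p.2 0 ^ 2) (TT p.2) - pA (p.2 0 ^ 2) (TT p.2)) p.2

theorem hm_symm (p : ℝ × E 6) (i j : Fin 6) : hm p i j = hm p j i := mm_symm _ _ _ _ i j

theorem hm_zero : (fun y => hm (0, y)) = ff fA fB fH := by
  funext y
  simp only [hm, ff, fA, fB, fH, hB_zero, hH_zero]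

theorem den_zero (t : ℝ) : den 0 t = 1 := by simp [den, ab]

theorem beta_smooth {z : ℝ × ℝ × ℝ} (hz : den z.1 z.2.2 ≠ 0) :
    ContDiffAt ℝ ω (fun z : ℝ × ℝ × ℝ => beta z.1 z.2.2) z := by
  unfold beta
  refine ContDiffAt.div ?_ ?_ hz
  · unfold qk ab cch; fun_prop
  · unfold den qk ab cch; fun_prop

theorem hB_smooth {z : ℝ × ℝ × ℝ} (hz : den z.1 z.2.2 ≠ 0) :
    ContDiffAt ℝ ω (fun z : ℝ × ℝ × ℝ => hB z.1 z.2.1 z.2.2) z := by
  unfold hB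
  exact (beta_smooth hz).add (by fun_prop)

theorem pA_smooth {z : ℝ × ℝ × ℝ} :
    ContDiffAt ℝ ω (fun z : ℝ × ℝ × ℝ => pA z.2.1 z.2.2) z := by
  unfold pA; fun_prop

theorem hD_smooth {z : ℝ × ℝ × ℝ} (hz : den z.1 z.2.2 ≠ 0) :
    ContDiffAt ℝ ω (fun z : ℝ × ℝ × ℝ => hD z.1 z.2.1 z.2.2) z := by
  unfold hD
  exact pA_smooth.add (ContDiffAt.mul (by fun_prop) (hB_smooth hz))

theorem hH_smooth {z : ℝ × ℝ × ℝ} (hz : den z.1 z.2.2 ≠ 0) :
    ContDiffAt ℝ ω (fun z : ℝ × ℝ × ℝ => hH z.1 z.2.1 z.2.2) z := by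
  unfold hH
  have h1 := pA_smooth (z := z)
  have h2 := hD_smooth hz
  have h0 : ContDiffAt ℝ ω (fun z : ℝ × ℝ × ℝ => z.1) z := by fun_prop
  have h3 : ContDiffAt ℝ ω (fun z : ℝ × ℝ × ℝ => 1 + z.1 * pA z.2.1 z.2.2) z :=
    contDiffAt_const.add (h0.mul h1)
  refine ContDiffAt.add (by fun_prop) (ContDiffAt.mul (by fun_prop) ?_)
  exact (h1.mul (((contDiffAt_const.add h3).add (h3.pow 2)).add (h3.pow 3))).add
    ((h3.pow 4).mul h2)

/-- the map `(ε, x) ↦ (ε, x₀², |y|²)` -/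
noncomputable def red (p : ℝ × E 6) : ℝ × ℝ × ℝ := (p.1, p.2 0 ^ 2, TT p.2)

theorem red_smooth (p : ℝ × E 6) : ContDiffAt ℝ ω red p := by
  unfold red
  have h1 : ContDiffAt ℝ ω (fun p : ℝ × E 6 => TT p.2) p :=
    (TT_smooth (n := 6)).contDiffAt.comp p contDiffAt_snd
  have h2 : ContDiffAt ℝ ω (fun p : ℝ × E 6 => p.2 0 ^ 2) p := by fun_prop
  exact contDiffAt_fst.prodMk (h2.prodMk h1)

theorem hm_smooth {p : ℝ × E 6} (hp : den p.1 (TT p.2) ≠ 0) (i j : Fin 6) :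
    ContDiffAt ℝ ω (fun q => hm q i j) p := by
  have r := red_smooth p
  have hz : den (red p).1 (red p).2.2 ≠ 0 := hp
  have h1 : ContDiffAt ℝ ω (fun q : ℝ × E 6 => pA (q.2 0 ^ 2) (TT q.2)) p :=
    ContDiffAt.comp (g := fun z : ℝ × ℝ × ℝ => pA z.2.1 z.2.2) p pA_smooth r
  have h2 : ContDiffAt ℝ ω (fun q : ℝ × E 6 => hB q.1 (q.2 0 ^ 2) (TT q.2)) p :=
    ContDiffAt.comp (g := fun z : ℝ × ℝ × ℝ => hB z.1 z.2.1 z.2.2) p (hB_smooth hz) r
  have h3 : ContDiffAt ℝ ω (fun q : ℝ × E 6 => hH q.1 (q.2 0 ^ 2) (TT q.2)) p :=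
    ContDiffAt.comp (g := fun z : ℝ × ℝ × ℝ => hH z.1 z.2.1 z.2.2) p (hH_smooth hz) r
  have h4 : ∀ i, ContDiffAt ℝ ω (fun q : ℝ × E 6 => yy q.2 i) p := fun i =>
    (yy_smooth (n := 6) i).contDiffAt.comp p contDiffAt_snd
  unfold hm
  simp only [mm_apply]
  exact ((h1.mul contDiffAt_const).add ((h2.mul (h4 i)).mul (h4 j))).add
    (((h3.sub h1).mul contDiffAt_const).mul contDiffAt_const)

theorem hm_smooth_zero (x : E 6) (i j : Fin 6) : ContDiffAt ℝ ω (fun q => hm q i j) (0, x) :=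
  hm_smooth (by simp [den_zero]) i j

/-- The metric written with `a`, `b`, `α`. -/
theorem GG_hm (ε : ℝ) (y : E 6) : GG hm (ε, y) =
    mm (1 + ε * pA (y 0 ^ 2) (TT y)) (ε * hB ε (y 0 ^ 2) (TT y))
      (ε * hH ε (y 0 ^ 2) (TT y) - ε * pA (y 0 ^ 2) (TT y)) y := by
  ext i j
  rw [GG_apply]
  simp only [hm, mm_apply]
  ring

/-- the nondegeneracy condition at a point -/
def Ok (p : ℝ × E 6) : Prop :=
  den p.1 (TT p.2) ≠ 0 ∧ 0 < 1 + p.1 * pA (p.2 0 ^ 2) (TT p.2) ∧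
    0 < 1 + p.1 * hD p.1 (p.2 0 ^ 2) (TT p.2)

theorem ok_eventually (x : E 6) : ∀ᶠ p in 𝓝 ((0 : ℝ), x), Ok p := by
  have r := (red_smooth ((0 : ℝ), x)).continuousAt
  have hz : den (red ((0 : ℝ), x)).1 (red ((0 : ℝ), x)).2.2 ≠ 0 := by simp [red, den_zero]
  have d0 : ContinuousAt (fun z : ℝ × ℝ × ℝ => den z.1 z.2.2) (red (0, x)) := by
    unfold den qk ab cch
    exact Continuous.continuousAt (by fun_prop)
  have d1 : ContinuousAt (fun z : ℝ × ℝ × ℝ => 1 + z.1 * pA z.2.1 z.2.2) (red (0, x)) := by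
    unfold pA
    exact Continuous.continuousAt (by fun_prop)
  have d2 : ContinuousAt (fun z : ℝ × ℝ × ℝ => 1 + z.1 * hD z.1 z.2.1 z.2.2) (red (0, x)) :=
    ContinuousAt.add continuousAt_const
      (ContinuousAt.mul (Continuous.continuousAt (by fun_prop)) (hD_smooth hz).continuousAt)
  have c0 : ContinuousAt (fun q : ℝ × E 6 => den q.1 (TT q.2)) (0, x) := d0.comp r
  have c1 : ContinuousAt (fun q : ℝ × E 6 => 1 + q.1 * pA (q.2 0 ^ 2) (TT q.2)) (0, x) :=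
    d1.comp r
  have c2 : ContinuousAt (fun q : ℝ × E 6 => 1 + q.1 * hD q.1 (q.2 0 ^ 2) (TT q.2)) (0, x) :=
    d2.comp r
  have e0 := c0.eventually_ne (y := 0) (by simp [den_zero])
  have e1 := c1.eventually_const_lt (u := 0) (by simp)
  have e2 := c2.eventually_const_lt (u := 0) (by simp)
  filter_upwards [e0, e1, e2] with p a b c using ⟨a, b, c⟩

theorem ok_small : ∀ᶠ ε in 𝓝 (0 : ℝ), ∀ x ∈ closedBall (0 : E 6) 1, Ok (ε, x) :=
  (isCompact_closedBall (0 : E 6) 1).eventually_forall_of_forall_eventually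
    (P := fun ε x => Ok (ε, x)) fun x _ => ok_eventually x

/-- the inverse metric -/
theorem GG_inv {ε : ℝ} {x : E 6} (hε : 0 < ε) (hok : Ok (ε, x)) :
    (mm (1 + ε * pA (x 0 ^ 2) (TT x)) (ε * hB ε (x 0 ^ 2) (TT x))
      (ε * hH ε (x 0 ^ 2) (TT x) - ε * pA (x 0 ^ 2) (TT x)) x)⁻¹ =
    mm (1 / (1 + ε * pA (x 0 ^ 2) (TT x)))
      (-(ε * hB ε (x 0 ^ 2) (TT x)) / ((1 + ε * pA (x 0 ^ 2) (TT x)) *
        (1 + ε * hD ε (x 0 ^ 2) (TT x))))
      (1 / (1 + ε * hH ε (x 0 ^ 2) (TT x)) - 1 / (1 + ε * pA (x 0 ^ 2) (TT x))) x := by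
  obtain ⟨h0, h1, h2⟩ := hok
  simp only at h0 h1 h2
  have e1 : 1 + ε * pA (x 0 ^ 2) (TT x) + ε * hB ε (x 0 ^ 2) (TT x) * TT x =
      1 + ε * hD ε (x 0 ^ 2) (TT x) := by unfold hD; ring
  have e2 : 1 + ε * pA (x 0 ^ 2) (TT x) + (ε * hH ε (x 0 ^ 2) (TT x) -
      ε * pA (x 0 ^ 2) (TT x)) = 1 + ε * hH ε (x 0 ^ 2) (TT x) := by ring
  have h3 : 0 < 1 + ε * hH ε (x 0 ^ 2) (TT x) := by
    rw [alpha_eq]; positivity
  have := mm_inv (x := x) (a := 1 + ε * pA (x 0 ^ 2) (TT x))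
    (b := ε * hB ε (x 0 ^ 2) (TT x))
    (c := ε * hH ε (x 0 ^ 2) (TT x) - ε * pA (x 0 ^ 2) (TT x)) h1.ne'
    (by rw [e1]; exact h2.ne') (by rw [e2]; exact h3.ne')
  rw [this, e1, e2]

end Pool.Agent.Escobar
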