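import Pool.Agent.Escobar.Soft2

open scoped ContDiff Topology
open Metric Filter

namespace Pool.Agent.Escobar

variable {n : ℕ}

/-- derivative in the direction `v` -/
noncomputable def Dv (v : E n) (f : E n → ℝ) (x : E n) : ℝ := ∑ i, v i * pd i f x

theorem pd_smooth (k : Fin n) {f : E n → ℝ} (hf : ContDiff ℝ ω f) : ContDiff ℝ ω (pd k f) := by
  unfold pd
  have : ContDiff ℝ ω (fderiv ℝ f) := hf.fderiv_right (by simp)
  exact this.clm_apply contDiff_const

theorem smooth_diff {f : E n → ℝ} (hf : ContDiff ℝ ω f) (x : E n) : DifferentiableAt ℝ f x :=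
  hf.contDiffAt.differentiableAt (by simp)

/-- The linearised Ricci tensor contracted with `v` twice. -/
theorem gam0_contract {f : E n → Matrix (Fin n) (Fin n) ℝ}
    (hf : ∀ i j, ContDiff ℝ ω (fun y => f y i j)) (v : E n) (k : Fin n) (y : E n) :
    ∑ i, ∑ j, gam0 f k i j y * v i * v j =
      Dv v (fun z => ∑ j, f z j k * v j) y - (1 / 2) * pd k (fun z => qf (fun i j => f z i j) v) y := by
  have h1 : Dv v (fun z => ∑ j, f z j k * v j) y =
      ∑ i, ∑ j, pd i (fun z => f z j k) y * v i * v j := by
    unfold Dv
    refine Finset.sum_congr rfl fun i _ => ?_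
    have e : pd i (fun z => ∑ j, f z j k * v j) y = ∑ j, pd i (fun z => v j * f z j k) y := by
      rw [← pd_sum i Finset.univ (f := fun j z => v j * f z j k)
        (fun j _ => (smooth_diff (hf j k) y).const_mul _)]
      congr 1; funext z
      exact Finset.sum_congr rfl fun j _ => by ring
    rw [e, Finset.mul_sum]
    refine Finset.sum_congr rfl fun j _ => ?_
    rw [pd_const_mul i _ (smooth_diff (hf j k) y)]
    ring
  have h2 : pd k (fun z => qf (fun i j => f z i j) v) y =
      ∑ i, ∑ j, pd k (fun z => f z i j) y * v i * v j := by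
    unfold qf
    rw [pd_sum k Finset.univ (f := fun i z => ∑ j, f z i j * v i * v j)]
    · refine Finset.sum_congr rfl fun i _ => ?_
      rw [pd_sum k Finset.univ (f := fun j z => f z i j * v i * v j)]
      · refine Finset.sum_congr rfl fun j _ => ?_
        have : (fun z => f z i j * v i * v j) = fun z => (v i * v j) * f z i j := by
          funext z; ring
        rw [this, pd_const_mul k _ (smooth_diff (hf i j) y)]
        ring
      · intro j _
        exact ((smooth_diff (hf i j) y).mul_const _).mul_const _
    · intro i _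
      refine DifferentiableAt.fun_sum fun j _ => ?_
      exact ((smooth_diff (hf i j) y).mul_const _).mul_const _
  rw [h1, h2]
  have h3 : ∑ i, ∑ j, pd j (fun z => f z i k) y * v i * v j =
      ∑ i, ∑ j, pd i (fun z => f z j k) y * v i * v j := by
    rw [Finset.sum_comm]
    exact Finset.sum_congr rfl fun i _ => Finset.sum_congr rfl fun j _ => by ring
  have h4 : ∑ i, ∑ j, gam0 f k i j y * v i * v j =
      (1 / 2) * (∑ i, ∑ j, pd i (fun z => f z j k) y * v i * v j +
        ∑ i, ∑ j, pd j (fun z => f z i k) y * v i * v j -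
        ∑ i, ∑ j, pd k (fun z => f z i j) y * v i * v j) := by
    unfold gam0
    rw [← Finset.sum_add_distrib, ← Finset.sum_sub_distrib, Finset.mul_sum]
    refine Finset.sum_congr rfl fun i _ => ?_
    rw [← Finset.sum_add_distrib, ← Finset.sum_sub_distrib, Finset.mul_sum]
    exact Finset.sum_congr rfl fun j _ => by ring
  rw [h4, h3]; ring

theorem ric0_contract {f : E n → Matrix (Fin n) (Fin n) ℝ}
    (hf : ∀ i j, ContDiff ℝ ω (fun y => f y i j)) (v x : E n) :
    qf (fun i j => ric0 f i j x) v =
      ∑ k, pd k (fun y => Dv v (fun z => ∑ j, f z j k * v j) y -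
        (1 / 2) * pd k (fun z => qf (fun i j => f z i j) v) y) x -
      (1 / 2) * Dv v (Dv v (fun z => ∑ k, f z k k)) x := by
  have hg : ∀ k i j, ContDiff ℝ ω (gam0 f k i j) := by
    intro k i j
    unfold gam0
    exact contDiff_const.mul (((pd_smooth i (hf j k)).add (pd_smooth j (hf i k))).sub
      (pd_smooth k (hf i j)))
  -- first part
  have h1 : ∑ i, ∑ j, (∑ k, pd k (gam0 f k i j) x) * v i * v j =
      ∑ k, pd k (fun y => Dv v (fun z => ∑ j, f z j k * v j) y -
        (1 / 2) * pd k (fun z => qf (fun i j => f z i j) v) y) x := by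
    have e1 : ∀ k, (fun y => Dv v (fun z => ∑ j, f z j k * v j) y -
        (1 / 2) * pd k (fun z => qf (fun i j => f z i j) v) y) =
        fun y => ∑ i, ∑ j, (v i * v j) * gam0 f k i j y := by
      intro k; funext y
      rw [← gam0_contract hf v k y]
      exact Finset.sum_congr rfl fun i _ => Finset.sum_congr rfl fun j _ => by ring
    have e2 : ∀ k, pd k (fun y => ∑ i, ∑ j, (v i * v j) * gam0 f k i j y) x =
        ∑ i, ∑ j, (v i * v j) * pd k (gam0 f k i j) x := by
      intro k
      rw [pd_sum k Finset.univ (f := fun i y => ∑ j, (v i * v j) * gam0 f k i j y)]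
      · refine Finset.sum_congr rfl fun i _ => ?_
        rw [pd_sum k Finset.univ (f := fun j y => (v i * v j) * gam0 f k i j y)]
        · exact Finset.sum_congr rfl fun j _ => pd_const_mul k _ (smooth_diff (hg k i j) x)
        · intro j _; exact (smooth_diff (hg k i j) x).const_mul _
      · intro i _
        exact DifferentiableAt.fun_sum fun j _ => (smooth_diff (hg k i j) x).const_mul _
    simp only [e1, e2]
    simp only [Finset.sum_mul]
    calc ∑ i, ∑ j, ∑ k, pd k (gam0 f k i j) x * v i * v j
        = ∑ i, ∑ k, ∑ j, pd k (gam0 f k i j) x * v i * v j :=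
          Finset.sum_congr rfl fun y _ => Finset.sum_comm
      _ = ∑ k, ∑ i, ∑ j, pd k (gam0 f k i j) x * v i * v j := Finset.sum_comm
      _ = _ := Finset.sum_congr rfl fun k _ => Finset.sum_congr rfl fun i _ =>
            Finset.sum_congr rfl fun j _ => by ring
  -- second part
  have h2 : ∀ i, ∀ y, ∑ k, gam0 f k i k y = (1 / 2) * pd i (fun z => ∑ k, f z k k) y := by
    intro i y
    rw [pd_sum i Finset.univ (f := fun k z => f z k k) (fun k _ => smooth_diff (hf k k) y),
      Finset.mul_sum]
    refine Finset.sum_congr rfl fun k _ => ?_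
    unfold gam0; ring
  have hT : ContDiff ℝ ω (fun z => ∑ k, f z k k) := ContDiff.sum fun k _ => hf k k
  have h3 : ∀ i j, ∑ k, pd j (gam0 f k i k) x =
      (1 / 2) * pd j (pd i (fun z => ∑ k, f z k k)) x := by
    intro i j
    rw [← pd_sum j Finset.univ (f := fun k y => gam0 f k i k y)
      (fun k _ => smooth_diff (hg k i k) x)]
    have : (fun y => ∑ k, gam0 f k i k y) = fun y => (1 / 2) * pd i (fun z => ∑ k, f z k k) y := by
      funext y; exact h2 i y
    rw [this, pd_const_mul j _ (smooth_diff (pd_smooth i hT) x)]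
  have h4 : ∑ i, ∑ j, (∑ k, pd j (gam0 f k i k) x) * v i * v j =
      (1 / 2) * Dv v (Dv v (fun z => ∑ k, f z k k)) x := by
    simp only [h3]
    have e3 : Dv v (Dv v (fun z => ∑ k, f z k k)) x =
        ∑ j, v j * ∑ i, v i * pd j (pd i (fun z => ∑ k, f z k k)) x := by
      conv_lhs => unfold Dv
      refine Finset.sum_congr rfl fun j _ => ?_
      congr 1
      have := pd_sum j Finset.univ (f := fun i y => v i * pd i (fun z => ∑ k, f z k k) y)
        (x := x) (fun i _ => (smooth_diff (pd_smooth i hT) x).const_mul _)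
      rw [this]
      exact Finset.sum_congr rfl fun i _ => pd_const_mul j _ (smooth_diff (pd_smooth i hT) x)
    rw [e3, Finset.mul_sum, Finset.sum_comm]
    refine Finset.sum_congr rfl fun j _ => ?_
    rw [Finset.mul_sum, Finset.mul_sum]
    exact Finset.sum_congr rfl fun i _ => by ring
  unfold qf ric0
  simp only [sub_mul, Finset.sum_sub_distrib]
  rw [h4]
  congr 1

end Pool.Agent.Escobar
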