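import Pool.Agent.Escobar.Calc

open scoped ContDiff Topology
open Metric Filter

namespace Pool.Agent.Escobar

variable {n : ℕ} [NeZero n]

/-- The symmetric matrix `a δ + b y y + c e e`. -/
noncomputable def mm (a b c : ℝ) (x : E n) : Matrix (Fin n) (Fin n) ℝ :=
  fun i j => a * (1 : Matrix (Fin n) (Fin n) ℝ) i j + b * yy x i * yy x j + c * e0 i * e0 j

theorem mm_apply (a b c : ℝ) (x : E n) (i j : Fin n) : mm a b c x i j =
  a * (1 : Matrix (Fin n) (Fin n) ℝ) i j + b * yy x i * yy x j + c * e0 i * e0 j := rfl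

omit [NeZero n] in
theorem sum_one_mul (i : Fin n) (f : Fin n → ℝ) :
    ∑ k, (1 : Matrix (Fin n) (Fin n) ℝ) i k * f k = f i := by
  simp [Matrix.one_apply]

theorem mm_row (a b c : ℝ) (x v : E n) (k : Fin n) :
    ∑ j, mm a b c x k j * v j = a * v k + b * PP v x * yy x k + c * v 0 * e0 k := by
  simp only [mm_apply, add_mul, Finset.sum_add_distrib]
  have h1 : ∑ j, a * (1 : Matrix (Fin n) (Fin n) ℝ) k j * v j = a * v k := by
    simp only [mul_assoc]
    rw [← Finset.mul_sum, sum_one_mul]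
  have h2 : ∑ j, b * yy x k * yy x j * v j = b * PP v x * yy x k := by
    have : ∀ j, b * yy x k * yy x j * v j = (b * yy x k) * (yy x j * v j) := fun j => by ring
    simp only [this, ← Finset.mul_sum, sum_yy_x]; ring
  have h3 : ∑ j, c * e0 k * e0 j * v j = c * v 0 * e0 k := by
    have : ∀ j, c * e0 k * e0 j * v j = (c * e0 k) * (e0 j * v j) := fun j => by ring
    simp only [this, ← Finset.mul_sum, sum_e0_x]; ring
  rw [h1, h2, h3]

theorem sum_x_x (v : E n) : ∑ k, v k * v k = v 0 ^ 2 + TT v := by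
  have : ∀ k, v k * v k = v 0 * (e0 k * v k) + yy v k * v k := by
    intro k
    have h := coord_eq v k
    calc v k * v k = (v 0 * e0 k + yy v k) * v k := by rw [← h]
      _ = _ := by ring
  rw [Finset.sum_congr rfl fun k _ => this k, Finset.sum_add_distrib, ← Finset.mul_sum,
    sum_e0_x, sum_yy_x, PP_self]
  ring

theorem mm_qf (a b c : ℝ) (x v : E n) :
    qf (fun i j => mm a b c x i j) v = a * (v 0 ^ 2 + TT v) + b * PP v x ^ 2 + c * v 0 ^ 2 := by
  unfold qf
  have h1 : ∀ i, ∑ j, mm a b c x i j * v i * v j =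
      a * (v i * v i) + (b * PP v x) * (yy x i * v i) + (c * v 0) * (e0 i * v i) := by
    intro i
    have : ∀ j, mm a b c x i j * v i * v j = v i * (mm a b c x i j * v j) := fun j => by ring
    simp only [this, ← Finset.mul_sum, mm_row]
    ring
  simp only [h1, Finset.sum_add_distrib, ← Finset.mul_sum, sum_x_x, sum_yy_x, sum_e0_x]
  ring

theorem mm_symm (a b c : ℝ) (x : E n) (i j : Fin n) : mm a b c x i j = mm a b c x j i := by
  simp only [mm_apply, Matrix.one_apply]
  by_cases h : i = j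
  · subst h; ring
  · rw [if_neg h, if_neg (fun h' => h h'.symm)]; ring

theorem mm_trace (a b c : ℝ) (x : E n) :
    ∑ k, mm a b c x k k = a * n + b * TT x + c := by
  simp only [mm_apply, Finset.sum_add_distrib, Matrix.one_apply_eq]
  have h2 : ∑ k, b * yy x k * yy x k = b * TT x := by
    simp only [mul_assoc, ← Finset.mul_sum, sum_yy_yy]
  have h3 : ∑ k : Fin n, c * e0 k * e0 k = c := by
    simp only [mul_assoc, ← Finset.mul_sum, sum_e0_e0]; ring
  rw [h2, h3]; simp; ring

/-- the first-order family -/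
noncomputable def ff (a b c : E n → ℝ) (y : E n) : Matrix (Fin n) (Fin n) ℝ :=
  mm (a y) (b y) (c y - a y) y

/-- expressions -/
noncomputable def Ex.QE (A B H : Ex) (v : E n) : Ex :=
  .add (.add (.mul A (.c (TT v))) (.mul B (.mul .p .p))) (.mul H (.c (v 0 ^ 2)))

/-- trace -/
noncomputable def Ex.TE (A B H : Ex) (n : ℕ) : Ex :=
  .add (.add H (.mul (.c ((n : ℝ) - 1)) A)) (.mul B .t)

/-- coefficient of `yy` -/
noncomputable def Ex.F1 (A B H : Ex) (v : E n) : Ex :=
  .add (Ex.dv v (.mul B .p)) (.mul (.c (-1)) (Ex.QE A B H v).dt)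

/-- coefficient of `yy v` -/
noncomputable def Ex.G1 (A B H : Ex) (v : E n) : Ex :=
  .add (.add (.mul B .p) (Ex.dv v A)) (.mul (.c (-(1 / 2))) (Ex.QE A B H v).dp)

/-- coefficient of `e0` -/
noncomputable def Ex.K1 (A B H : Ex) (v : E n) : Ex :=
  .add (Ex.dv v (.mul H (.c (v 0)))) (.mul (.c (-(1 / 2))) (Ex.QE A B H v).ds)

theorem Dv_fn_mul_yy (v : E n) (F : Ex) (k : Fin n) (y : E n) :
    Dv v (fun z => F.fn v z * yy z k) y = (F.dv v).fn v y * yy y k + F.fn v y * yy v k := by
  rw [← Dv_fn]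
  unfold Dv
  have h1 : ∀ i, v i * pd i (fun z => F.fn v z * yy z k) y =
      (v i * pd i (F.fn v) y) * yy y k + F.fn v y * (if k = i then v i * (1 - e0 i) else 0) := by
    intro i
    rw [pd_mul i (smooth_diff (F.fn_smooth v) y) (smooth_diff (yy_smooth k) y), pd_yy]
    split_ifs <;> ring
  simp only [h1, Finset.sum_add_distrib, ← Finset.sum_mul, ← Finset.mul_sum, Finset.sum_ite_eq,
    Finset.mem_univ, if_true]
  congr 2
  unfold e0 yy; split_ifs <;> ring

omit [NeZero n] in
theorem Dv_add (v : E n) {f g : E n → ℝ} (hf : ContDiff ℝ ω f) (hg : ContDiff ℝ ω g) (y : E n) :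
    Dv v (fun z => f z + g z) y = Dv v f y + Dv v g y := by
  unfold Dv
  rw [← Finset.sum_add_distrib]
  refine Finset.sum_congr rfl fun i _ => ?_
  rw [pd_add i (smooth_diff hf y) (smooth_diff hg y)]; ring

omit [NeZero n] in
theorem Dv_mul_const (v : E n) {f : E n → ℝ} (hf : ContDiff ℝ ω f) (r : ℝ) (y : E n) :
    Dv v (fun z => f z * r) y = Dv v f y * r := by
  unfold Dv
  rw [Finset.sum_mul]
  refine Finset.sum_congr rfl fun i _ => ?_
  have : (fun z => f z * r) = fun z => r * f z := by funext z; ring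
  rw [this, pd_const_mul i _ (smooth_diff hf y)]; ring

section
variable {a b c : E n → ℝ} {A B H : Ex} (hA : ∀ v, A.fn v = a) (hB : ∀ v, B.fn v = b)
  (hH : ∀ v, H.fn v = c)
include hA hB hH

theorem ff_smooth (i j : Fin n) : ContDiff ℝ ω (fun y => ff a b c y i j) := by
  unfold ff
  simp only [mm_apply]
  have h1 : ContDiff ℝ ω a := by rw [← hA 0]; exact A.fn_smooth 0
  have h2 : ContDiff ℝ ω b := by rw [← hB 0]; exact B.fn_smooth 0
  have h3 : ContDiff ℝ ω c := by rw [← hH 0]; exact H.fn_smooth 0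
  exact ((h1.mul contDiff_const).add ((h2.mul (yy_smooth i)).mul (yy_smooth j))).add
    (((h3.sub h1).mul contDiff_const).mul contDiff_const)

theorem qf_ff (v z : E n) :
    qf (fun i j => ff a b c z i j) v = (Ex.QE A B H v).fn v z := by
  unfold ff
  rw [mm_qf]
  simp only [Ex.QE, Ex.fn, Ex.ev]
  have e1 := congrFun (hA v) z
  have e2 := congrFun (hB v) z
  have e3 := congrFun (hH v) z
  simp only [Ex.fn] at e1 e2 e3
  rw [e1, e2, e3]; ring

theorem gam0_formula (v : E n) (k : Fin n) (y : E n) :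
    Dv v (fun z => ∑ j, ff a b c z j k * v j) y -
        (1 / 2) * pd k (fun z => qf (fun i j => ff a b c z i j) v) y =
      (Ex.F1 A B H v).fn v y * yy y k + (Ex.G1 A B H v).fn v y * yy v k +
        (Ex.K1 A B H v).fn v y * e0 k := by
  have h1 : (fun z => ∑ j, ff a b c z j k * v j) =
      fun z => (Ex.mul B .p).fn v z * yy z k + A.fn v z * yy v k +
        (Ex.mul H (.c (v 0))).fn v z * e0 k := by
    funext z
    have : ∀ j, ff a b c z j k * v j = mm (a z) (b z) (c z - a z) z k j * v j := by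
      intro j; unfold ff; rw [mm_symm]
    simp only [this, mm_row]
    have e1 := congrFun (hA v) z
    have e2 := congrFun (hB v) z
    have e3 := congrFun (hH v) z
    simp only [Ex.fn, Ex.ev] at e1 e2 e3 ⊢
    rw [e1, e2, e3]
    nth_rewrite 1 [coord_eq v k]
    ring
  have h2 : (fun z => qf (fun i j => ff a b c z i j) v) = (Ex.QE A B H v).fn v := by
    funext z; exact qf_ff hA hB hH v z
  have s1 : ContDiff ℝ ω (fun z : E n => (Ex.mul B .p).fn v z * yy z k) :=
    (Ex.fn_smooth v _).mul (yy_smooth k)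
  have s2 : ContDiff ℝ ω (fun z : E n => A.fn v z * yy v k) :=
    (Ex.fn_smooth v _).mul contDiff_const
  have s3 : ContDiff ℝ ω (fun z : E n => (Ex.mul H (.c (v 0))).fn v z * e0 k) :=
    (Ex.fn_smooth v _).mul contDiff_const
  rw [h1, h2, Dv_add v (s1.add s2) s3, Dv_add v s1 s2, Dv_fn_mul_yy,
    Dv_mul_const v (Ex.fn_smooth v _), Dv_mul_const v (Ex.fn_smooth v _), Dv_fn, Dv_fn, pd_fn]
  simp only [Ex.F1, Ex.G1, Ex.K1, Ex.fn, Ex.ev]
  ring

theorem ric0_formula (v x : E n) :
    qf (fun i j => ric0 (ff a b c) i j x) v =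
      (2 * TT x * (Ex.F1 A B H v).dt.fn v x + PP v x * (Ex.F1 A B H v).dp.fn v x +
        ((n : ℝ) - 1) * (Ex.F1 A B H v).fn v x) +
      (2 * PP v x * (Ex.G1 A B H v).dt.fn v x + TT v * (Ex.G1 A B H v).dp.fn v x) +
      (Ex.K1 A B H v).ds.fn v x - (1 / 2) * (((Ex.TE A B H n).dv v).dv v).fn v x := by
  rw [ric0_contract (ff_smooth hA hB hH)]
  simp only [gam0_formula hA hB hH]
  rw [div_fn]
  congr 2
  have h1 : (fun z => ∑ k, ff a b c z k k) = (Ex.TE A B H n).fn v := by
    funext z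
    unfold ff
    rw [mm_trace]
    have e1 := congrFun (hA v) z
    have e2 := congrFun (hB v) z
    have e3 := congrFun (hH v) z
    simp only [Ex.TE, Ex.fn, Ex.ev] at e1 e2 e3 ⊢
    rw [e1, e2, e3]; ring
  have h2 : Dv v ((Ex.TE A B H n).fn v) = ((Ex.TE A B H n).dv v).fn v := by
    funext z; exact Dv_fn v _ z
  rw [h1, h2, Dv_fn]

theorem bdry_formula (v x : E n) :
    ∑ k, ∑ i, ∑ j, x k * gam0 (ff a b c) k i j x * v i * v j =
      (Ex.F1 A B H v).fn v x * TT x + (Ex.G1 A B H v).fn v x * PP v x +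
        (Ex.K1 A B H v).fn v x * x 0 := by
  have h1 : ∀ k, ∑ i, ∑ j, x k * gam0 (ff a b c) k i j x * v i * v j =
      (Ex.F1 A B H v).fn v x * (yy x k * x k) + (Ex.G1 A B H v).fn v x * (yy v k * x k) +
        (Ex.K1 A B H v).fn v x * (e0 k * x k) := by
    intro k
    have e : ∑ i, ∑ j, x k * gam0 (ff a b c) k i j x * v i * v j =
        x k * ∑ i, ∑ j, gam0 (ff a b c) k i j x * v i * v j := by
      rw [Finset.mul_sum]
      refine Finset.sum_congr rfl fun i _ => ?_
      rw [Finset.mul_sum]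
      exact Finset.sum_congr rfl fun j _ => by ring
    rw [e, gam0_contract (ff_smooth hA hB hH), gam0_formula hA hB hH]
    ring
  simp only [h1, Finset.sum_add_distrib, ← Finset.mul_sum, sum_yy_x, sum_e0_x, PP_self]
  rw [PP_comm x v]

end

end Pool.Agent.Escobar
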