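import Pool.Agent.Escobar.Formula

open scoped ContDiff Topology
open Metric Filter

namespace Pool.Agent.Escobar

/-! ### The explicit first-order data in dimension six -/

/-- coefficient polynomials of the linearised Ricci tensor (with `X = s²`) -/
def ra0 (X t : ℝ) : ℝ :=
  270 + (-74) * t + (-128) * t ^ 2 + 270 * X + 2468 * X * t + 2920 * X ^ 2

/-- second coefficient -/
def ra1 (X t : ℝ) : ℝ := 7632 + 296 * t + (-4672) * X

/-- third coefficient -/
def ra2 (X t : ℝ) : ℝ :=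
  294 + 11712 * t + 6 * t ^ 2 + 7686 * X + 222 * X * t + (-1752) * X ^ 2

/-- fourth coefficient -/
def ra3 (X t : ℝ) : ℝ := 5486 + (-86) * t + 3430 * X

theorem ra0_pos {X t : ℝ} (hX : 0 ≤ X) (ht : 0 ≤ t) (h : X + t ≤ 1) : 0 < ra0 X t := by
  have hu : 0 ≤ 1 - X - t := by linarith
  unfold ra0
  nlinarith [mul_nonneg hu hu, mul_nonneg hu hX, mul_nonneg hu ht, mul_nonneg hX hX,
    mul_nonneg hX ht, mul_nonneg ht ht]

theorem ra2_pos {X t : ℝ} (hX : 0 ≤ X) (ht : 0 ≤ t) (h : X + t ≤ 1) : 0 < ra2 X t := by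
  have hu : 0 ≤ 1 - X - t := by linarith
  unfold ra2
  nlinarith [mul_nonneg hu hu, mul_nonneg hu hX, mul_nonneg hu ht, mul_nonneg hX hX,
    mul_nonneg hX ht, mul_nonneg ht ht]

theorem det_pos {X t : ℝ} (hX : 0 ≤ X) (ht : 0 ≤ t) (h : X + t ≤ 1) :
    0 < ra0 X t * (ra2 X t + t * ra3 X t) - t * X * ra1 X t ^ 2 := by
  obtain ⟨u, hu⟩ : ∃ u, u = 1 - X - t := ⟨_, rfl⟩
  have hu0 : 0 ≤ u := by rw [hu]; linarith
  have key : ra0 X t * (ra2 X t + t * ra3 X t) - t * X * ra1 X t ^ 2 = 79380 + (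
      1104636 * t ^ 10 +
      1225592 * X * t ^ 9 +
      90728476 * X ^ 2 * t ^ 8 +
      692137472 * X ^ 3 * t ^ 7 +
      2198445352 * X ^ 4 * t ^ 6 +
      3860523536 * X ^ 5 * t ^ 5 +
      4122206632 * X ^ 6 * t ^ 4 +
      2738087936 * X ^ 7 * t ^ 3 +
      1098481372 * X ^ 8 * t ^ 2 +
      240461432 * X ^ 9 * t +
      21469500 * X ^ 10 +
      15633736 * u * t ^ 9 +
      18020184 * u * X * t ^ 8 +
      526695632 * u * X ^ 2 * t ^ 7 +
      3681986096 * u * X ^ 3 * t ^ 6 +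
      10208013120 * u * X ^ 4 * t ^ 5 +
      14953059136 * u * X ^ 5 * t ^ 4 +
      12633376624 * u * X ^ 6 * t ^ 3 +
      6150972432 * u * X ^ 7 * t ^ 2 +
      1582490936 * u * X ^ 8 * t +
      162172200 * u * X ^ 9 +
      83138288 * u ^ 2 * t ^ 8 +
      78043152 * u ^ 2 * X * t ^ 7 +
      1226569680 * u ^ 2 * X ^ 2 * t ^ 6 +
      8059576240 * u ^ 2 * X ^ 3 * t ^ 5 +
      19154729280 * u ^ 2 * X ^ 4 * t ^ 4 +
      22478782128 * u ^ 2 * X ^ 5 * t ^ 3 +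
      14016222032 * u ^ 2 * X ^ 6 * t ^ 2 +
      4395355920 * u ^ 2 * X ^ 7 * t +
      531098160 * u ^ 2 * X ^ 8 +
      237002592 * u ^ 3 * t ^ 7 +
      160561360 * u ^ 3 * X * t ^ 6 +
      1429609040 * u ^ 3 * X ^ 2 * t ^ 5 +
      9380209600 * u ^ 3 * X ^ 3 * t ^ 4 +
      18598968640 * u ^ 3 * X ^ 4 * t ^ 3 +
      16380372752 * u ^ 3 * X ^ 5 * t ^ 2 +
      6640982800 * u ^ 3 * X ^ 6 * t +
      985419360 * u ^ 3 * X ^ 7 +
      412416584 * u ^ 4 * t ^ 6 +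
      179229120 * u ^ 4 * X * t ^ 5 +
      833007400 * u ^ 4 * X ^ 2 * t ^ 4 +
      6340191200 * u ^ 4 * X ^ 3 * t ^ 3 +
      9972134760 * u ^ 4 * X ^ 4 * t ^ 2 +
      5834079424 * u ^ 4 * X ^ 5 * t +
      1135941000 * u ^ 4 * X ^ 6 +
      461706736 * u ^ 5 * t ^ 5 +
      112247232 * u ^ 5 * X * t ^ 4 +
      213780336 * u ^ 5 * X ^ 2 * t ^ 3 +
      2640173872 * u ^ 5 * X ^ 3 * t ^ 2 +
      2916887232 * u ^ 5 * X ^ 4 * t +
      839953200 * u ^ 5 * X ^ 5 +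
      335572656 * u ^ 6 * t ^ 4 +
      42595184 * u ^ 6 * X * t ^ 3 +
      61052752 * u ^ 6 * X ^ 2 * t ^ 2 +
      729685616 * u ^ 6 * X ^ 3 * t +
      398559600 * u ^ 6 * X ^ 4 +
      153530848 * u ^ 7 * t ^ 3 +
      16635312 * u ^ 7 * X * t ^ 2 +
      63125360 * u ^ 7 * X ^ 2 * t +
      119220960 * u ^ 7 * X ^ 3 +
      40263452 * u ^ 8 * t ^ 2 +
      8525640 * u ^ 8 * X * t +
      21852060 * u ^ 8 * X ^ 2 +
      4621704 * u ^ 9 * t +
      2154600 * u ^ 9 * X) := by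
    unfold ra0 ra1 ra2 ra3
    rw [hu]
    ring
  rw [key]
  positivity

/-- positivity of the linearised Ricci form -/
theorem ric_form_pos {s t v0 p N : ℝ} (ht : 0 ≤ t) (h : s ^ 2 + t ≤ 1) (hp : p ^ 2 ≤ t * N)
    (hN : 0 ≤ N) (hv : v0 ^ 2 + N = 1) :
    0 < ra0 (s ^ 2) t * v0 ^ 2 + 2 * s * ra1 (s ^ 2) t * v0 * p + ra2 (s ^ 2) t * N +
      ra3 (s ^ 2) t * p ^ 2 := by
  have hX : 0 ≤ s ^ 2 := sq_nonneg s
  have h0 := ra0_pos hX ht h
  have h2 := ra2_pos hX ht h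
  have hd := det_pos hX ht h
  set X := s ^ 2 with hXdef
  rcases ht.eq_or_lt with ht0 | ht0
  · have hp0 : p = 0 := by
      have : p ^ 2 ≤ 0 := by rw [← ht0] at hp; linarith
      exact pow_eq_zero_iff (two_ne_zero) |>.1 (le_antisymm this (sq_nonneg p))
    rw [hp0]
    have : 0 < ra0 X t * v0 ^ 2 + ra2 X t * N := by
      rcases hN.eq_or_lt with hN0 | hN0
      · have : v0 ^ 2 = 1 := by linarith
        rw [this, ← hN0]; linarith
      · have := mul_nonneg h0.le (sq_nonneg v0)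
        have := mul_pos h2 hN0
        linarith
    linarith
  · -- multiply by `t * ra0`
    have e : ra0 X t * t * (t * (ra0 X t * v0 ^ 2 + 2 * s * ra1 X t * v0 * p + ra2 X t * N +
        ra3 X t * p ^ 2)) = (ra0 X t * t * v0 + s * ra1 X t * t * p) ^ 2 +
        t * (ra0 X t * (ra2 X t + t * ra3 X t) - t * X * ra1 X t ^ 2) * p ^ 2 +
        ra0 X t * t * ra2 X t * (t * N - p ^ 2) := by
      rw [hXdef]; ring
    have e1 : 0 ≤ (ra0 X t * t * v0 + s * ra1 X t * t * p) ^ 2 := sq_nonneg _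
    have e2 : 0 ≤ t * (ra0 X t * (ra2 X t + t * ra3 X t) - t * X * ra1 X t ^ 2) * p ^ 2 := by
      positivity
    have e3 : 0 ≤ ra0 X t * t * ra2 X t * (t * N - p ^ 2) := by
      have : 0 ≤ t * N - p ^ 2 := by linarith
      positivity
    have e4 : 0 < (ra0 X t * t * v0 + s * ra1 X t * t * p) ^ 2 +
        t * (ra0 X t * (ra2 X t + t * ra3 X t) - t * X * ra1 X t ^ 2) * p ^ 2 +
        ra0 X t * t * ra2 X t * (t * N - p ^ 2) := by
      by_cases hp0 : p = 0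
      · subst hp0
        by_cases hv0 : v0 = 0
        · have hN1 : N = 1 := by rw [hv0] at hv; linarith
          have : 0 < ra0 X t * t * ra2 X t * (t * N - 0 ^ 2) := by
            rw [hN1]; have : 0 < t * 1 - 0 ^ 2 := by linarith
            positivity
          linarith
        · have : 0 < (ra0 X t * t * v0 + s * ra1 X t * t * 0) ^ 2 := by
            rw [mul_zero, add_zero]
            positivity
          linarith
      · have : 0 < t * (ra0 X t * (ra2 X t + t * ra3 X t) - t * X * ra1 X t ^ 2) * p ^ 2 := by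
          positivity
        linarith
    rw [← e] at e4
    have h5 : 0 < ra0 X t * t := by positivity
    exact (mul_pos_iff_of_pos_left ht0).1 ((mul_pos_iff_of_pos_left h5).1 e4)

/-! boundary polynomials -/

/-- first boundary polynomial -/
def rc1 (t : ℝ) : ℝ := 2169 - 3146 * t + 984 * t ^ 2

/-- second boundary polynomial -/
def rtc (t : ℝ) : ℝ := 2169 - 8006 * t + 9778 * t ^ 2 - 3936 * t ^ 3

theorem rc1_pos {t : ℝ} (_ : 0 ≤ t) (h1 : t ≤ 1) : 0 < rc1 t := by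
  unfold rc1; nlinarith

theorem rtc_pos {t : ℝ} (_ : 0 ≤ t) (h1 : t ≤ 1) : 0 < rtc t := by
  unfold rtc
  nlinarith [mul_nonneg (sub_nonneg.2 h1) (sq_nonneg (t - 37 / 50)), sq_nonneg (t - 37 / 50)]

end Pool.Agent.Escobar
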