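import Pool.Agent.Escobar.Basic

open scoped ContDiff Topology
open Metric Filter

namespace Pool.Agent.Escobar

variable {n : ℕ}

/-- The family of matrices `1 + ε h(ε,x)`. -/
noncomputable def GG (h : ℝ × E n → Matrix (Fin n) (Fin n) ℝ) (p : ℝ × E n) :
    Matrix (Fin n) (Fin n) ℝ := 1 + p.1 • h p

/-- Christoffel symbols divided by `ε`. -/
noncomputable def gam (h : ℝ × E n → Matrix (Fin n) (Fin n) ℝ) (k i j : Fin n)
    (p : ℝ × E n) : ℝ :=
  ∑ l, (1 / 2) * (GG h p)⁻¹ k l *
    (pdx i (fun q => h q j l) p + pdx j (fun q => h q i l) p - pdx l (fun q => h q i j) p)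

/-- Ricci tensor divided by `ε`. -/
noncomputable def RR (h : ℝ × E n → Matrix (Fin n) (Fin n) ℝ) (i j : Fin n)
    (p : ℝ × E n) : ℝ :=
  ∑ k, pdx k (gam h k i j) p - ∑ k, pdx j (gam h k i k) p +
    p.1 * ∑ k, ∑ l, (gam h k k l p * gam h l i j p - gam h k j l p * gam h l i k p)

/-- A point where the family is analytic and nondegenerate. -/
def Good (h : ℝ × E n → Matrix (Fin n) (Fin n) ℝ) (p : ℝ × E n) : Prop :=
  (∀ i j, ContDiffAt ℝ ω (fun q => h q i j) p) ∧ (GG h p).det ≠ 0

variable {h : ℝ × E n → Matrix (Fin n) (Fin n) ℝ}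

theorem GG_apply (p : ℝ × E n) (i j : Fin n) :
    GG h p i j = (1 : Matrix (Fin n) (Fin n) ℝ) i j + p.1 * h p i j := by
  simp [GG]

theorem GG_smooth {p : ℝ × E n} (hs : ∀ i j, ContDiffAt ℝ ω (fun q => h q i j) p) (i j : Fin n) :
    ContDiffAt ℝ ω (fun q => GG h q i j) p := by
  simp only [GG_apply]
  exact contDiffAt_const.add (contDiffAt_fst.mul (hs i j))

theorem good_eventually {p : ℝ × E n} (hp : Good h p) : ∀ᶠ q in 𝓝 p, Good h q := by
  have h1 : ∀ᶠ q in 𝓝 p, ∀ i j, ContDiffAt ℝ ω (fun r => h r i j) q := by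
    rw [eventually_all]; intro i
    rw [eventually_all]; intro j
    exact (hp.1 i j).eventually (by simp)
  have h2 : ∀ᶠ q in 𝓝 p, (GG h q).det ≠ 0 :=
    (det_smooth (GG_smooth hp.1)).continuousAt.eventually_ne hp.2
  filter_upwards [h1, h2] with q a b using ⟨a, b⟩

theorem good_zero {x : E n} (hs : ∀ i j, ContDiffAt ℝ ω (fun q => h q i j) (0, x)) :
    Good h (0, x) := by
  refine ⟨hs, ?_⟩
  simp [GG]

theorem gam_smooth {p : ℝ × E n} (hp : Good h p) (k i j : Fin n) :
    ContDiffAt ℝ ω (gam h k i j) p := by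
  unfold gam
  refine ContDiffAt.sum fun l _ => ?_
  exact (contDiffAt_const.mul (inv_smooth (GG_smooth hp.1) hp.2 k l)).mul
    (((pdx_smooth i (hp.1 j l)).add (pdx_smooth j (hp.1 i l))).sub (pdx_smooth l (hp.1 i j)))

theorem diff_of_smooth {F : ℝ × E n → ℝ} {p : ℝ × E n} (hF : ContDiffAt ℝ ω F p) :
    DifferentiableAt ℝ F p := hF.differentiableAt (by simp)

theorem diff_slice {F : ℝ × E n → ℝ} {p : ℝ × E n} (hF : ContDiffAt ℝ ω F p) :
    DifferentiableAt ℝ (fun y => F (p.1, y)) p.2 :=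
  (slice_smooth hF).differentiableAt (by simp)

theorem pd_GG {p : ℝ × E n} (hp : Good h p) (k i j : Fin n) :
    pd k (fun y => GG h (p.1, y) i j) p.2 = p.1 * pdx k (fun q => h q i j) p := by
  simp only [GG_apply]
  have hd := diff_slice (hp.1 i j)
  rw [pd_add k (by fun_prop) (hd.const_mul _), pd_const, pd_const_mul k _ hd,
    pd_slice k (diff_of_smooth (hp.1 i j)), zero_add]

theorem chris_eq {p : ℝ × E n} (hp : Good h p) (k i j : Fin n) :
    christoffel (fun y => GG h (p.1, y)) k i j p.2 = p.1 * gam h k i j p := by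
  unfold christoffel gam
  rw [Finset.mul_sum]
  refine Finset.sum_congr rfl fun l _ => ?_
  rw [pd_GG hp, pd_GG hp, pd_GG hp]
  ring

theorem pd_chris {p : ℝ × E n} (hp : Good h p) (m k i j : Fin n) :
    pd m (christoffel (fun y => GG h (p.1, y)) k i j) p.2 = p.1 * pdx m (gam h k i j) p := by
  have h1 : christoffel (fun y => GG h (p.1, y)) k i j =ᶠ[𝓝 p.2]
      fun y => p.1 * gam h k i j (p.1, y) := by
    have := eventually_slice (good_eventually hp)
    filter_upwards [this] with y hy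
    exact chris_eq hy k i j
  rw [pd_congr m h1, pd_const_mul m _ (diff_slice (gam_smooth hp k i j)),
    pd_slice m (diff_of_smooth (gam_smooth hp k i j))]

theorem ricci_eq {p : ℝ × E n} (hp : Good h p) (i j : Fin n) :
    ricci (fun y => GG h (p.1, y)) i j p.2 = p.1 * RR h i j p := by
  unfold ricci RR
  simp only [pd_chris hp, chris_eq hp]
  rw [mul_add, mul_sub, Finset.mul_sum, Finset.mul_sum]
  congr 1
  rw [Finset.mul_sum, Finset.mul_sum]
  refine Finset.sum_congr rfl fun k _ => ?_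
  rw [Finset.mul_sum, Finset.mul_sum]
  refine Finset.sum_congr rfl fun l _ => ?_
  ring

theorem RR_smooth {p : ℝ × E n} (hp : Good h p) (i j : Fin n) :
    ContDiffAt ℝ ω (RR h i j) p := by
  unfold RR
  refine ContDiffAt.add (ContDiffAt.sub ?_ ?_) (contDiffAt_fst.mul ?_)
  · exact ContDiffAt.sum fun k _ => pdx_smooth _ (gam_smooth hp _ _ _)
  · exact ContDiffAt.sum fun k _ => pdx_smooth _ (gam_smooth hp _ _ _)
  · refine ContDiffAt.sum fun k _ => ContDiffAt.sum fun l _ => ?_
    exact ((gam_smooth hp _ _ _).mul (gam_smooth hp _ _ _)).sub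
      ((gam_smooth hp _ _ _).mul (gam_smooth hp _ _ _))

/-! ### The first-order data at `ε = 0` -/

/-- linearised Christoffel symbols of `1 + ε f` -/
noncomputable def gam0 (f : E n → Matrix (Fin n) (Fin n) ℝ) (k i j : Fin n) (x : E n) : ℝ :=
  (1 / 2) * (pd i (fun y => f y j k) x + pd j (fun y => f y i k) x - pd k (fun y => f y i j) x)

/-- linearised Ricci tensor of `1 + ε f` -/
noncomputable def ric0 (f : E n → Matrix (Fin n) (Fin n) ℝ) (i j : Fin n) (x : E n) : ℝ :=
  ∑ k, pd k (gam0 f k i j) x - ∑ k, pd j (gam0 f k i k) x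

theorem gam_zero {x : E n} (hs : ∀ i j, ContDiffAt ℝ ω (fun q => h q i j) (0, x)) (k i j : Fin n) :
    gam h k i j (0, x) = gam0 (fun y => h (0, y)) k i j x := by
  unfold gam gam0
  have h1 : (GG h (0, x))⁻¹ = 1 := by simp [GG]
  simp only [h1, Matrix.one_apply]
  rw [Finset.sum_eq_single k]
  · have e1 := pd_slice i (diff_of_smooth (hs j k))
    have e2 := pd_slice j (diff_of_smooth (hs i k))
    have e3 := pd_slice k (diff_of_smooth (hs i j))
    simp only at e1 e2 e3
    rw [e1, e2, e3]; simp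
  · intro b _ hb; simp [Ne.symm hb]
  · simp

theorem RR_zero (hs : ∀ x i j, ContDiffAt ℝ ω (fun q => h q i j) (0, x)) (i j : Fin n)
    (x : E n) : RR h i j (0, x) = ric0 (fun y => h (0, y)) i j x := by
  unfold RR ric0
  have e : ∀ m k i j, pdx m (gam h k i j) (0, x) = pd m (gam0 (fun y => h (0, y)) k i j) x := by
    intro m k i j
    rw [← pd_slice m (diff_of_smooth (gam_smooth (good_zero (hs x)) k i j))]
    congr 1
    funext y
    exact gam_zero (hs y) k i j
  simp only [e, zero_mul, add_zero]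

end Pool.Agent.Escobar
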