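import Pool.Agent.Escobar.Soft

open scoped ContDiff Topology
open Metric Filter

namespace Pool.Agent.Escobar

variable {n : ℕ} {h : ℝ × E n → Matrix (Fin n) (Fin n) ℝ}

/-- quadratic form of a matrix -/
noncomputable def qf (M : Fin n → Fin n → ℝ) (v : E n) : ℝ := ∑ i, ∑ j, M i j * v i * v j

theorem qf_smul (M : Fin n → Fin n → ℝ) (r : ℝ) (v : E n) : qf M (r • v) = r ^ 2 * qf M v := by
  unfold qf
  rw [Finset.mul_sum]
  refine Finset.sum_congr rfl fun i _ => ?_
  rw [Finset.mul_sum]
  refine Finset.sum_congr rfl fun j _ => ?_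
  simp only [PiLp.smul_apply, smul_eq_mul]
  ring

theorem qf_const_mul (M : Fin n → Fin n → ℝ) (r : ℝ) (v : E n) :
    qf (fun i j => r * M i j) v = r * qf M v := by
  unfold qf
  rw [Finset.mul_sum]
  refine Finset.sum_congr rfl fun i _ => ?_
  rw [Finset.mul_sum]
  refine Finset.sum_congr rfl fun j _ => ?_
  ring

theorem qf_one (v : E n) : qf (fun i j => (1 : Matrix (Fin n) (Fin n) ℝ) i j) v = ‖v‖ ^ 2 := by
  unfold qf
  rw [EuclideanSpace.norm_sq_eq]
  refine Finset.sum_congr rfl fun i _ => ?_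
  simp [Matrix.one_apply, sq]

theorem qf_add (M N : Fin n → Fin n → ℝ) (v : E n) :
    qf (fun i j => M i j + N i j) v = qf M v + qf N v := by
  unfold qf
  rw [← Finset.sum_add_distrib]
  refine Finset.sum_congr rfl fun i _ => ?_
  rw [← Finset.sum_add_distrib]
  refine Finset.sum_congr rfl fun j _ => ?_
  ring

/-- a jointly continuous quadratic form -/
theorem qf_cont {F : Fin n → Fin n → ℝ × E n → ℝ} {x v : E n}
    (hF : ∀ i j, ContinuousAt (F i j) (0, x)) :
    ContinuousAt (fun z : ℝ × (E n × E n) => qf (fun i j => F i j (z.1, z.2.1)) z.2.2)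
      (0, (x, v)) := by
  unfold qf
  refine tendsto_finsetSum _ fun i _ => tendsto_finsetSum _ fun j _ => ?_
  have h1 : ContinuousAt (fun z : ℝ × (E n × E n) => F i j (z.1, z.2.1)) (0, (x, v)) := by
    refine ContinuousAt.comp (g := F i j) (f := fun z : ℝ × (E n × E n) => (z.1, z.2.1)) (hF i j) ?_
    exact Continuous.continuousAt (by fun_prop)
  exact (h1.mul (Continuous.continuousAt (by fun_prop))).mul
    (Continuous.continuousAt (by fun_prop))

/-- compactness: a quadratic form positive on unit vectors at `ε = 0` remains so for small `ε` -/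
theorem qf_pos {F : Fin n → Fin n → ℝ × E n → ℝ} {R : ℝ}
    (hF : ∀ x i j, ContinuousAt (F i j) (0, x))
    (hpos : ∀ x ∈ closedBall (0 : E n) R, ∀ v : E n, ‖v‖ = 1 → 0 < qf (fun i j => F i j (0, x)) v) :
    ∀ᶠ ε in 𝓝 (0 : ℝ), ∀ x ∈ closedBall (0 : E n) R, ∀ v : E n, ‖v‖ = 1 →
      0 < qf (fun i j => F i j (ε, x)) v := by
  have hK : IsCompact (closedBall (0 : E n) R ×ˢ sphere (0 : E n) 1) :=
    (isCompact_closedBall _ _).prod (isCompact_sphere _ _)
  have := hK.eventually_forall_of_forall_eventually (x₀ := (0 : ℝ))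
    (P := fun ε z => 0 < qf (fun i j => F i j (ε, z.1)) z.2) ?_
  · filter_upwards [this] with ε hε x hx v hv
    exact hε (x, v) ⟨hx, by simpa using hv⟩
  · rintro ⟨x, v⟩ ⟨hx, hv⟩
    have hv' : ‖v‖ = 1 := by simpa using hv
    exact (qf_cont (v := v) (hF x)).eventually_const_lt (hpos x hx v hv')

/-- the family is good on any fixed ball, for small `ε` -/
theorem good_small (hs : ∀ x i j, ContDiffAt ℝ ω (fun q => h q i j) (0, x)) (R : ℝ) :
    ∀ᶠ ε in 𝓝 (0 : ℝ), ∀ x ∈ closedBall (0 : E n) R, Good h (ε, x) := by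
  refine (isCompact_closedBall (0 : E n) R).eventually_forall_of_forall_eventually
    (P := fun ε x => Good h (ε, x)) fun x _ => ?_
  exact good_eventually (good_zero (hs x))

theorem ricci_pos (hs : ∀ x i j, ContDiffAt ℝ ω (fun q => h q i j) (0, x))
    (h0 : ∀ x ∈ closedBall (0 : E n) 1, ∀ v : E n, ‖v‖ = 1 →
      0 < qf (fun i j => ric0 (fun y => h (0, y)) i j x) v) :
    ∀ᶠ ε in 𝓝 (0 : ℝ), 0 < ε → ∀ x ∈ closedBall (0 : E n) 1, ∀ v : E n, v ≠ 0 →
      0 < ricciQuad (fun y => GG h (ε, y)) x v := by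
  have h1 := qf_pos (F := fun i j => RR h i j) (R := 1)
    (fun x i j => (RR_smooth (good_zero (hs x)) i j).continuousAt) (by
      intro x hx v hv
      simp only [RR_zero hs]
      exact h0 x hx v hv)
  filter_upwards [h1, good_small hs 1] with ε h1 h2 hε x hx v hv
  have e : ricciQuad (fun y => GG h (ε, y)) x v = qf (fun i j => ε * RR h i j (ε, x)) v := by
    unfold ricciQuad qf
    refine Finset.sum_congr rfl fun i _ => Finset.sum_congr rfl fun j _ => ?_
    have := ricci_eq (h2 x hx) i j
    simp only at this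
    rw [this]
  rw [e, qf_const_mul]
  have hn : 0 < ‖v‖ := norm_pos_iff.2 hv
  have hu : ‖(‖v‖⁻¹ • v)‖ = 1 := by rw [norm_smul, norm_inv, norm_norm, inv_mul_cancel₀ hn.ne']
  have h3 := h1 x hx (‖v‖⁻¹ • v) hu
  rw [qf_smul] at h3
  have h4 : 0 < qf (fun i j => RR h i j (ε, x)) v := by
    by_contra hc
    push Not at hc
    have := mul_nonpos_of_nonneg_of_nonpos (sq_nonneg (‖v‖⁻¹)) hc
    linarith
  positivity

/-- for small `ε` the family is a smooth Riemannian metric -/
theorem isMetric_small (hs : ∀ x i j, ContDiffAt ℝ ω (fun q => h q i j) (0, x))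
    (hsym : ∀ p i j, h p i j = h p j i) :
    ∀ᶠ ε in 𝓝 (0 : ℝ), IsMetric (fun y => GG h (ε, y)) := by
  have h1 := qf_pos (F := fun i j p => GG h p i j) (R := 2)
    (fun x i j => (GG_smooth (hs x) i j).continuousAt) (by
      intro x hx v hv
      have : (fun i j => GG h (0, x) i j) = fun i j => (1 : Matrix (Fin n) (Fin n) ℝ) i j := by
        funext i j; simp [GG_apply]
      rw [this, qf_one, hv]; norm_num)
  filter_upwards [h1, good_small hs 2] with ε h1 h2
  refine ⟨⟨ball 0 2, isOpen_ball, closedBall_subset_ball (by norm_num), ?_⟩, ?_⟩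
  · intro i j x hx
    have hg := h2 x (ball_subset_closedBall hx)
    have h3 := slice_smooth (GG_smooth hg.1 i j)
    exact (h3.of_le (by simp)).contDiffWithinAt
  · intro x hx
    have hx2 : x ∈ closedBall (0 : E n) 2 := closedBall_subset_closedBall (by norm_num) hx
    refine Matrix.PosDef.of_dotProduct_mulVec_pos ?_ ?_
    · ext i j
      simp only [Matrix.conjTranspose_apply, GG_apply, star_trivial, Matrix.one_apply]
      rw [hsym]
      simp [eq_comm]
    · intro w hw
      set v : E n := WithLp.toLp 2 w with hv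
      have hv0 : v ≠ 0 := by
        intro h0
        apply hw
        have : WithLp.ofLp v = WithLp.ofLp (0 : E n) := by rw [h0]
        simpa [hv] using this
      have hn : 0 < ‖v‖ := norm_pos_iff.2 hv0
      have hu : ‖(‖v‖⁻¹ • v)‖ = 1 := by
        rw [norm_smul, norm_inv, norm_norm, inv_mul_cancel₀ hn.ne']
      have h3 := h1 x hx2 (‖v‖⁻¹ • v) hu
      rw [qf_smul] at h3
      have h4 : 0 < qf (fun i j => GG h (ε, x) i j) v := by
        by_contra hc
        push Not at hc
        have := mul_nonpos_of_nonneg_of_nonpos (sq_nonneg (‖v‖⁻¹)) hc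
        linarith
      have h5 : star w ⬝ᵥ (GG h (ε, x)).mulVec w = qf (fun i j => GG h (ε, x) i j) v := by
        unfold qf
        simp only [dotProduct, Matrix.mulVec, Pi.star_apply, star_trivial]
        refine Finset.sum_congr rfl fun i _ => ?_
        rw [Finset.mul_sum]
        refine Finset.sum_congr rfl fun j _ => ?_
        simp only [hv]
        ring
      rw [h5]; exact h4

end Pool.Agent.Escobar
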